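import Pool.Agent.LibSteiner.Fam

namespace Pool.Agent.LibSteiner

open Finset

theorem exists_relfam (k : ℕ) (hk : 3 ≤ k) :
    ∃ (H : Type) (_ : AddCommGroup H) (_ : Fintype H) (m Q : ℕ), 0 < m ∧
      ∀ (F : Type) [Field F] [Fintype F] [DecidableEq F] (φ : ClassFun F (ZMod m)),
        φ.cl (-1) = 0 → (2 : F) ≠ 0 → Q ≤ Fintype.card F →
        ∃ (J : Type) (f : J → Fin k → H × F), RelFam k φ.cl f := by
  classical
  obtain ⟨H, iH, iHf, Γ, iΓ, B, hDF, hN⟩ := exists_DF k (by omega) ((2 * (k / 2)) ^ 4 + 1)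
  set r := k / 2 with hr
  set N := Fintype.card Γ with hNdef
  set K := Fintype.card (Fold k) with hKdef
  have hr0 : 0 < r := by omega
  have hN0 : 0 < N := by omega
  have hK0 : 0 < K := Fintype.card_pos_iff.mpr (fold_nonempty k)
  set m := r * (N * K) with hm
  have hm0 : 0 < m := by positivity
  obtain ⟨Q, hQ⟩ := embed m k 1
  refine ⟨H, iH, iHf, m, Q, hm0, ?_⟩
  intro F _ _ _ φ hneg h2F hQF
  have : NeZero r := ⟨hr0.ne'⟩
  have : NeZero (r * N) := ⟨(Nat.mul_pos hr0 hN0).ne'⟩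
  have : NeZero m := ⟨hm0.ne'⟩
  have hd1 : r * N ∣ m := by rw [hm, ← mul_assoc]; exact Dvd.intro _ rfl
  have hd2 : r ∣ m := Dvd.intro _ rfl
  set φ1 := φ.red hd1 with hφ1
  set φ2 := φ.red hd2 with hφ2
  have hneg1 : φ1.cl (-1) = 0 := by rw [hφ1, ClassFun.red_cl, hneg, map_zero]
  have hneg2 : φ2.cl (-1) = 0 := by rw [hφ2, ClassFun.red_cl, hneg, map_zero]
  obtain ⟨x, xinj, xrev, xcl, xdist⟩ := exists_x k r N (by omega) hr φ1 φ2 hneg1 hneg2 h2F
    (by rw [ZMod.card]) (by omega)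
  let eΓ : Γ ≃ Fin N := Fintype.equivFin Γ
  let eS : Fold k ≃ Fin K := Fintype.equivFin (Fold k)
  choose s hs0 hsc using fun (γ : Γ) (σ : Fold k) =>
    φ.surj' (((r * ((eΓ γ).val + N * (eS σ).val) : ℕ)) : ZMod m)
  -- injectivity of s
  have sinj : ∀ γ γ' σ σ', φ.cl (s γ σ) = φ.cl (s γ' σ') → γ = γ' ∧ σ = σ' := by
    intro γ γ' σ σ' h
    rw [hsc, hsc] at h
    have h1 := (ZMod.natCast_eq_natCast_iff _ _ _).mp h
    have bound : ∀ (γ : Γ) (σ : Fold k), r * ((eΓ γ).val + N * (eS σ).val) < m := by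
      intro γ σ
      rw [hm]
      refine Nat.mul_lt_mul_of_pos_left ?_ hr0
      have a1 := (eΓ γ).2
      have a2 := (eS σ).2
      calc (eΓ γ).val + N * (eS σ).val < N + N * (eS σ).val := by omega
        _ = N * ((eS σ).val + 1) := by ring
        _ ≤ N * K := Nat.mul_le_mul_left N a2
    have h3 := Nat.ModEq.eq_of_lt_of_lt h1 (bound _ _) (bound _ _)
    have h4 := Nat.eq_of_mul_eq_mul_left hr0 h3
    have h5 : (eΓ γ).val = (eΓ γ').val := by
      have h6 := congrArg (· % N) h4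
      simp only [Nat.add_mul_mod_self_left] at h6
      rwa [Nat.mod_eq_of_lt (eΓ γ).2, Nat.mod_eq_of_lt (eΓ γ').2] at h6
    refine ⟨eΓ.injective (Fin.ext h5), eS.injective (Fin.ext ?_)⟩
    rw [h5] at h4
    exact Nat.eq_of_mul_eq_mul_left hN0 (Nat.add_left_cancel h4)
  have s2 : ∀ γ σ, φ2.cl (s γ σ) = 0 := by
    intro γ σ
    rw [hφ2, ClassFun.red_cl, hsc, map_natCast, ZMod.natCast_eq_zero_iff]
    exact Dvd.intro _ rfl
  have s1 : ∀ γ σ σ', φ1.cl (s γ σ) = φ1.cl (s γ σ') := by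
    have : ∀ γ σ, φ1.cl (s γ σ) = ((r * (eΓ γ).val : ℕ) : ZMod (r * N)) := by
      intro γ σ
      rw [hφ1, ClassFun.red_cl, hsc, map_natCast, ZMod.natCast_eq_natCast_iff]
      have : r * ((eΓ γ).val + N * (eS σ).val) = r * (eΓ γ).val + (r * N) * (eS σ).val := by ring
      rw [this]
      unfold Nat.ModEq
      rw [Nat.add_mul_mod_self_left]
    intro γ σ σ'
    rw [this, this]
  have x0 : ∀ p, x p = 0 ↔ p = Fin.rev p := by
    intro p
    constructor
    · intro h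
      apply xinj
      rw [xrev, h, neg_zero]
    · intro h
      have h1 := xrev p
      rw [← h] at h1
      have h3 : (2 : F) * x p = 0 := by linear_combination h1
      exact (mul_eq_zero.mp h3).resolve_left h2F
  have φneg : ∀ y, y ≠ 0 → φ.cl (-y) = φ.cl y := fun y hy => neg_cl φ hneg y hy
  have φneg' : ∀ a b, a - b ≠ 0 → φ.cl (b - a) = φ.cl (a - b) := by
    intro a b h
    rw [← φneg _ h, neg_sub]
  -- loops
  have linj : ∀ γ γ' σ σ' (p q : Fin k), p.val < r → q.val < r →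
      φ.cl (s γ σ * x p) = φ.cl (s γ' σ' * x q) → γ = γ' ∧ σ = σ' ∧ p = q := by
    intro γ γ' σ σ' p q hp hq h
    obtain ⟨hxp0, hxp⟩ := xcl p hp
    obtain ⟨hxq0, hxq⟩ := xcl q hq
    have h1 : φ2.cl (s γ σ * x p) = φ2.cl (s γ' σ' * x q) := by
      rw [hφ2, ClassFun.red_cl, ClassFun.red_cl, h]
    rw [φ2.mul' _ _ (hs0 _ _) hxp0, φ2.mul' _ _ (hs0 _ _) hxq0, s2, s2, zero_add, zero_add,
      hxp, hxq] at h1
    have h3 := Nat.ModEq.eq_of_lt_of_lt ((ZMod.natCast_eq_natCast_iff _ _ _).mp h1) hp hq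
    have h4 : p = q := Fin.ext h3
    subst h4
    rw [φ.mul' _ _ (hs0 _ _) hxp0, φ.mul' _ _ (hs0 _ _) hxp0] at h
    obtain ⟨h5, h6⟩ := sinj _ _ _ _ (add_right_cancel h)
    exact ⟨h5, h6, rfl⟩
  have hrk : r ≤ k := by omega
  have lsurj : ∀ μ : ZMod m, ∃ γ σ, ∃ p : Fin k, p.val < r ∧ φ.cl (s γ σ * x p) = μ := by
    let g : Γ × Fold k × Fin r → ZMod m := fun t => φ.cl (s t.1 t.2.1 * x (Fin.castLE hrk t.2.2))
    have ginj : Function.Injective g := by
      rintro ⟨γ, σ, i⟩ ⟨γ', σ', i'⟩ h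
      obtain ⟨h1, h2, h3⟩ := linj γ γ' σ σ' _ _ (by simp) (by simp) h
      have h4 : i = i' := Fin.castLE_injective hrk h3
      rw [h1, h2, h4]
    have gcard : Fintype.card (Γ × Fold k × Fin r) = Fintype.card (ZMod m) := by
      rw [ZMod.card, Fintype.card_prod, Fintype.card_prod, Fintype.card_fin, hm]
      ring
    have gbij := (Fintype.bijective_iff_injective_and_card g).mpr ⟨ginj, gcard⟩
    intro μ
    obtain ⟨⟨γ, σ, i⟩, h⟩ := gbij.2 μ
    exact ⟨γ, σ, Fin.castLE hrk i, by simp, h⟩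
  -- pairs
  have nondeg : ∀ {a a' : Fin k}, a ≠ a' → ∀ t ∈ inc k a a', t.2.2 ≠ t.2.1 ∧ t.2.2 ≠ Fin.rev t.2.1 := by
    intro a a' h t ht
    rw [mem_inc] at ht
    constructor
    · intro h1
      rw [h1] at ht
      exact h (ht.1.symm.trans ht.2)
    · intro h1
      apply h
      rw [← ht.1, ← ht.2]
      exact (t.1.2 _ _).mpr (Or.inr h1)
  let c : Γ → Fold k × Fin k × Fin k → ZMod m := fun γ t => φ.cl (s γ t.1 * (x t.2.1 - x t.2.2))
  let U : Γ → Fin k → Fin k → Finset (ZMod m) := fun γ a a' => (inc k a a').image (c γ)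
  have xne : ∀ {a a' : Fin k}, a ≠ a' → ∀ t ∈ inc k a a', x t.2.1 - x t.2.2 ≠ 0 := by
    intro a a' h t ht h1
    exact (nondeg h t ht).1 (xinj (sub_eq_zero.mp h1)).symm
  have K1 : ∀ γ (a a' : Fin k), a ≠ a' → ∀ t ∈ inc k a a', ∀ t' ∈ inc k a a', c γ t = c γ t' →
      t' = t ∨ t' = (t.1, Fin.rev t.2.1, Fin.rev t.2.2) := by
    rintro γ a a' haa ⟨σ, p, p'⟩ ht ⟨σ', q, q'⟩ ht' hc
    have hn := nondeg haa _ ht
    have hn' := nondeg haa _ ht'
    have hx := xne haa _ ht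
    have hx' := xne haa _ ht'
    rw [mem_inc] at ht ht'
    simp only at hn hn' hx hx' ht ht'
    have hc' : φ.cl (s γ σ * (x p - x p')) = φ.cl (s γ σ' * (x q - x q')) := hc
    have h1 : φ1.cl (s γ σ * (x p - x p')) = φ1.cl (s γ σ' * (x q - x q')) := by
      rw [hφ1, ClassFun.red_cl, ClassFun.red_cl, hc']
    rw [φ1.mul' _ _ (hs0 _ _) hx, φ1.mul' _ _ (hs0 _ _) hx', s1 γ σ σ'] at h1
    have h2 := xdist p p' q q' hn.1 hn.2 hn'.1 hn'.2 (add_left_cancel h1)
    have h3 : φ.cl (x q - x q') = φ.cl (x p - x p') := by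
      rcases h2 with ⟨rfl, rfl⟩ | ⟨rfl, rfl⟩ | ⟨rfl, rfl⟩ | ⟨rfl, rfl⟩
      · rfl
      · exact φneg' _ _ hx
      · rw [xrev, xrev, ← φneg _ hx]; congr 1; ring
      · rw [xrev, xrev]; congr 1; ring
    rw [φ.mul' _ _ (hs0 _ _) hx, φ.mul' _ _ (hs0 _ _) hx', h3] at hc'
    have h4 := (sinj _ _ _ _ (add_right_cancel hc')).2
    subst h4
    have h5 : q = p ∨ q = Fin.rev p := (σ.2 p q).mp (ht.1.trans ht'.1.symm)
    rcases h2 with ⟨rfl, rfl⟩ | ⟨rfl, rfl⟩ | ⟨rfl, rfl⟩ | ⟨rfl, rfl⟩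
    · exact Or.inl rfl
    · exfalso
      rcases h5 with h5 | h5
      · exact hn.1 h5
      · exact hn.2 h5
    · exact Or.inr rfl
    · exfalso
      rcases h5 with h5 | h5
      · exact hn.2 (by rw [← h5, Fin.rev_rev])
      · exact hn.1 (Fin.rev_injective h5)
  have K2 : ∀ γ (a a' : Fin k), a ≠ a' → (inc k a a').card = 2 * (U γ a a').card := by
    intro γ a a' haa
    rw [Finset.card_eq_sum_card_image (c γ) (inc k a a')]
    rw [Finset.sum_const_nat (m := 2)]
    · rw [mul_comm]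
    · intro u hu
      rw [Finset.mem_image] at hu
      obtain ⟨t, ht, rfl⟩ := hu
      have hfil : (inc k a a').filter (fun t' => c γ t' = c γ t)
          = {t, (t.1, Fin.rev t.2.1, Fin.rev t.2.2)} := by
        ext t'
        simp only [Finset.mem_filter, Finset.mem_insert, Finset.mem_singleton]
        constructor
        · rintro ⟨h1, h2⟩
          exact K1 γ a a' haa t ht t' h1 h2.symm
        · rintro (rfl | rfl)
          · exact ⟨ht, rfl⟩
          · have hx := xne haa _ ht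
            have ht2 := ht
            rw [mem_inc] at ht2 ⊢
            refine ⟨⟨?_, ?_⟩, ?_⟩
            · rw [← ht2.1]
              exact ((t.1.2 _ _).mpr (Or.inr rfl)).symm
            · rw [← ht2.2]
              exact ((t.1.2 _ _).mpr (Or.inr rfl)).symm
            · show φ.cl (s γ t.1 * (x (Fin.rev t.2.1) - x (Fin.rev t.2.2)))
                = φ.cl (s γ t.1 * (x t.2.1 - x t.2.2))
              rw [xrev, xrev]
              have e1 : s γ t.1 * (-x t.2.1 - -x t.2.2) = -(s γ t.1 * (x t.2.1 - x t.2.2)) := by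
                ring
              rw [e1, φneg _ (mul_ne_zero (hs0 _ _) hx)]
      rw [hfil, Finset.card_pair]
      intro h
      have h1 : t.2.1 = Fin.rev t.2.1 := congrArg (fun z => z.2.1) h
      have h2 : t.2.2 = Fin.rev t.2.2 := congrArg (fun z => z.2.2) h
      have h3 := (x0 _).mpr h1
      have h4 := (x0 _).mpr h2
      exact (nondeg haa t ht).1 (xinj (h4.trans h3.symm))
  have i0 : (⟨0, by omega⟩ : Fin k) ≠ ⟨1, by omega⟩ := by
    intro h; exact absurd (congrArg Fin.val h) (by norm_num)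
  set n := (inc k ⟨0, by omega⟩ ⟨1, by omega⟩).card / 2 with hn
  have hU : ∀ γ (a a' : Fin k), a ≠ a' → (U γ a a').card = n := by
    intro γ a a' haa
    rw [hn, card_inc k i0 haa, K2 γ a a' haa]
    omega
  have Usymm : ∀ γ (a a' : Fin k), a ≠ a' → U γ a a' = U γ a' a := by
    have sub : ∀ γ (a a' : Fin k), a ≠ a' → U γ a a' ⊆ U γ a' a := by
      intro γ a a' haa μ hμ
      rw [Finset.mem_image] at hμ ⊢
      obtain ⟨t, ht, rfl⟩ := hμ
      refine ⟨(t.1, t.2.2, t.2.1), ?_, ?_⟩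
      · rw [mem_inc] at ht ⊢
        exact ⟨ht.2, ht.1⟩
      · have hx := xne haa _ ht
        show φ.cl (s γ t.1 * (x t.2.2 - x t.2.1)) = φ.cl (s γ t.1 * (x t.2.1 - x t.2.2))
        have e1 : s γ t.1 * (x t.2.2 - x t.2.1) = -(s γ t.1 * (x t.2.1 - x t.2.2)) := by ring
        rw [e1, φneg _ (mul_ne_zero (hs0 _ _) hx)]
    intro γ a a' haa
    exact Finset.Subset.antisymm (sub γ a a' haa) (sub γ a' a haa.symm)
  set β := m - n with hβ
  have hen : ∀ (γ : Γ) (i j : Fin k), ∃ g : Fin β → ZMod m, i < j →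
      Function.Injective g ∧ ∀ μ, μ ∉ U γ i j ↔ ∃ b, g b = μ := by
    intro γ i j
    by_cases hij : i < j
    · have hc : ((U γ i j)ᶜ).card = β := by
        rw [Finset.card_compl, ZMod.card, hU γ i j hij.ne]
      let e := Finset.equivFinOfCardEq hc
      refine ⟨fun b => (e.symm b).1, fun _ => ⟨?_, ?_⟩⟩
      · intro b b' h
        exact e.symm.injective (Subtype.ext h)
      · intro μ
        constructor
        · intro h
          refine ⟨e ⟨μ, Finset.mem_compl.mpr h⟩, ?_⟩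
          show (e.symm (e _)).1 = μ
          rw [Equiv.symm_apply_apply]
        · rintro ⟨b, rfl⟩
          exact Finset.mem_compl.mp (e.symm b).2
    · exact ⟨fun _ => 0, fun h => absurd h hij⟩
  choose en hen using hen
  have hu : ∀ (γ : Γ) (b : Fin β), ∃ u : Fin k → F, ∀ i j, i < j →
      u j - u i ≠ 0 ∧ φ.cl (u j - u i) = en γ i j b := by
    intro γ b
    obtain ⟨u, -, hu⟩ := hQ F (ZMod m) φ (by rw [ZMod.card]) hQF (fun _ => univ)
      (fun _ => by simp) (fun i j => en γ i j b)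
    exact ⟨u, hu⟩
  choose u hu using hu
  have T1 : ∀ γ b (i j : Fin k), i ≠ j → u γ b i - u γ b j ≠ 0 := by
    intro γ b i j hij
    rcases lt_or_gt_of_ne hij with h | h
    · rw [← neg_sub]; exact neg_ne_zero.mpr (hu γ b i j h).1
    · exact (hu γ b j i h).1
  have T2 : ∀ γ b (i j : Fin k), i ≠ j → φ.cl (u γ b i - u γ b j) ∉ U γ i j := by
    intro γ b i j hij
    rcases lt_or_gt_of_ne hij with h | h
    · rw [φneg' _ _ (hu γ b i j h).1, (hu γ b i j h).2]
      exact ((hen γ i j h).2 _).mpr ⟨b, rfl⟩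
    · rw [(hu γ b j i h).2, Usymm γ i j hij]
      exact ((hen γ j i h).2 _).mpr ⟨b, rfl⟩
  have T3 : ∀ γ b b' (i j : Fin k), i ≠ j →
      φ.cl (u γ b i - u γ b j) = φ.cl (u γ b' i - u γ b' j) → b = b' := by
    intro γ b b' i j hij hc
    rcases lt_or_gt_of_ne hij with h | h
    · rw [φneg' _ _ (hu γ b i j h).1, (hu γ b i j h).2, φneg' _ _ (hu γ b' i j h).1,
        (hu γ b' i j h).2] at hc
      exact (hen γ i j h).1 hc
    · rw [(hu γ b j i h).2, (hu γ b' j i h).2] at hc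
      exact (hen γ j i h).1 hc
  have T4 : ∀ γ (i j : Fin k), i ≠ j → ∀ μ, μ ∉ U γ i j → ∃ b, φ.cl (u γ b i - u γ b j) = μ := by
    intro γ i j hij μ hμ
    rcases lt_or_gt_of_ne hij with h | h
    · obtain ⟨b, hb⟩ := ((hen γ i j h).2 μ).mp hμ
      refine ⟨b, ?_⟩
      rw [φneg' _ _ (hu γ b i j h).1, (hu γ b i j h).2, hb]
    · rw [Usymm γ i j hij] at hμ
      obtain ⟨b, hb⟩ := ((hen γ j i h).2 μ).mp hμ
      exact ⟨b, by rw [(hu γ b j i h).2, hb]⟩
  -- the family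
  let f : (Γ ⊕ ((Γ × Fold k) ⊕ (Γ × Fin β))) → Fin k → H × F := fun j =>
    match j with
    | Sum.inl γ => fun a => (B γ a, 0)
    | Sum.inr (Sum.inl (γ, σ)) => fun p => (B γ (σ.1 p), s γ σ * x p)
    | Sum.inr (Sum.inr (γ, b)) => fun a => (B γ a, u γ b a)
  have dfu : ∀ γ γ' (a a' b b' : Fin k), a ≠ a' → B γ a - B γ a' = B γ' b - B γ' b' →
      γ = γ' ∧ a = b ∧ a' = b' := by
    intro γ γ' a a' b b' haa h
    have h0 : B γ a - B γ a' ≠ 0 := by
      intro h1
      exact haa (hDF.1 γ (sub_eq_zero.mp h1))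
    obtain ⟨t, _, ht⟩ := hDF.2 _ h0
    have e1 := ht (γ, a, a') rfl
    have e2 := ht (γ', b, b') h.symm
    have e3 : (γ, a, a') = (γ', b, b') := e1.trans e2.symm
    simp only [Prod.mk.injEq] at e3
    exact e3
  have foldne : ∀ (σ : Fold k) (p p' : Fin k), p' ≠ p → p' ≠ Fin.rev p → σ.1 p ≠ σ.1 p' := by
    intro σ p p' h1 h2 h3
    rcases (σ.2 p p').mp h3 with h | h
    · exact h1 h
    · exact h2 h
  have sxinj : ∀ γ σ (p q : Fin k), s γ σ * x p = s γ σ * x q → p = q := by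
    intro γ σ p q h
    exact xinj (mul_left_cancel₀ (hs0 γ σ) h)
  refine ⟨_, f, ?_⟩
  constructor
  · -- inj
    rintro (γ | ⟨γ, σ⟩ | ⟨γ, b⟩) p q h
    · exact hDF.1 γ (congrArg Prod.fst h)
    · exact sxinj γ σ p q (congrArg Prod.snd h)
    · exact hDF.1 γ (congrArg Prod.fst h)
  · -- ex_row
    intro h hh
    obtain ⟨⟨γ, a, a'⟩, ht, -⟩ := hDF.2 h hh
    exact ⟨Sum.inl γ, a, a', ht, rfl⟩
  · -- ex
    intro h μ
    by_cases hh : h = 0
    · subst hh
      obtain ⟨γ, σ, p, hp, hc⟩ := lsurj (μ - φ.cl 2)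
      have hx0 := (xcl p hp).1
      have e1 : s γ σ * x p - s γ σ * x (Fin.rev p) = 2 * (s γ σ * x p) := by
        rw [xrev]; ring
      refine ⟨Sum.inr (Sum.inl (γ, σ)), p, Fin.rev p, ?_, ?_, ?_⟩
      · show B γ (σ.1 p) - B γ (σ.1 (Fin.rev p)) = 0
        rw [(σ.2 p (Fin.rev p)).mpr (Or.inr rfl), sub_self]
      · show s γ σ * x p - s γ σ * x (Fin.rev p) ≠ 0
        rw [e1]
        exact mul_ne_zero h2F (mul_ne_zero (hs0 _ _) hx0)
      · show φ.cl (s γ σ * x p - s γ σ * x (Fin.rev p)) = μ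
        rw [e1, φ.mul' _ _ h2F (mul_ne_zero (hs0 _ _) hx0), hc]
        abel
    · obtain ⟨⟨γ, a, a'⟩, ht, -⟩ := hDF.2 h hh
      have haa : a ≠ a' := by
        rintro rfl
        apply hh
        rw [← ht]
        exact sub_self _
      by_cases hμ : μ ∈ U γ a a'
      · rw [Finset.mem_image] at hμ
        obtain ⟨t, hti, htc⟩ := hμ
        have hx := xne haa _ hti
        rw [mem_inc] at hti
        refine ⟨Sum.inr (Sum.inl (γ, t.1)), t.2.1, t.2.2, ?_, ?_, ?_⟩
        · show B γ (t.1.1 t.2.1) - B γ (t.1.1 t.2.2) = h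
          rw [hti.1, hti.2]; exact ht
        · show s γ t.1 * x t.2.1 - s γ t.1 * x t.2.2 ≠ 0
          rw [← mul_sub]
          exact mul_ne_zero (hs0 _ _) hx
        · show φ.cl (s γ t.1 * x t.2.1 - s γ t.1 * x t.2.2) = μ
          rw [← mul_sub]; exact htc
      · obtain ⟨b, hb⟩ := T4 γ a a' haa μ hμ
        exact ⟨Sum.inr (Sum.inr (γ, b)), a, a', ht, T1 γ b a a' haa, hb⟩
  · -- uniq_row
    rintro (γ | ⟨γ, σ⟩ | ⟨γ, b⟩) p p' (γ' | ⟨γ', σ'⟩ | ⟨γ', b'⟩) q q' hp hq h1 h2 h3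
    · obtain ⟨rfl, rfl, rfl⟩ := dfu γ γ' p p' q q' hp h1
      exact ⟨rfl, rfl, rfl, fun _ => rfl⟩
    · exact absurd (sxinj γ' σ' q q' h3) hq
    · exact absurd (sub_eq_zero.mpr h3) (T1 γ' b' q q' hq)
    · exact absurd (sxinj γ σ p p' h2) hp
    · exact absurd (sxinj γ σ p p' h2) hp
    · exact absurd (sxinj γ σ p p' h2) hp
    · exact absurd (sub_eq_zero.mpr h2) (T1 γ b p p' hp)
    · exact absurd (sub_eq_zero.mpr h2) (T1 γ b p p' hp)
    · exact absurd (sub_eq_zero.mpr h2) (T1 γ b p p' hp)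
  · -- uniq
    rintro (γ | ⟨γ, σ⟩ | ⟨γ, b⟩) p p' (γ' | ⟨γ', σ'⟩ | ⟨γ', b'⟩) q q' h1 h2 h3 h4
    · exact absurd (sub_self _) h2
    · exact absurd (sub_self _) h2
    · exact absurd (sub_self _) h2
    · exact absurd (sub_self _) h3
    · -- type I and type I
      have h1' : B γ (σ.1 p) - B γ (σ.1 p') = B γ' (σ'.1 q) - B γ' (σ'.1 q') := h1
      have h2' : s γ σ * x p - s γ σ * x p' ≠ 0 := h2
      have h3' : s γ' σ' * x q - s γ' σ' * x q' ≠ 0 := h3
      have h4' : φ.cl (s γ σ * x p - s γ σ * x p') = φ.cl (s γ' σ' * x q - s γ' σ' * x q') := h4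
      have hpp : p' ≠ p := by rintro rfl; exact h2' (sub_self _)
      have hqq : q' ≠ q := by rintro rfl; exact h3' (sub_self _)
      have sym : ∀ a, (f (Sum.inr (Sum.inl (γ, σ))) (Fin.rev a)).1
            = (f (Sum.inr (Sum.inl (γ, σ))) a).1 ∧
          (f (Sum.inr (Sum.inl (γ, σ))) (Fin.rev a)).2
            = -(f (Sum.inr (Sum.inl (γ, σ))) a).2 := by
        intro a
        refine ⟨?_, ?_⟩
        · show B γ (σ.1 (Fin.rev a)) = B γ (σ.1 a)
          rw [(σ.2 a (Fin.rev a)).mpr (Or.inr rfl)]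
        · show s γ σ * x (Fin.rev a) = -(s γ σ * x a)
          rw [xrev]; ring
      by_cases hdeg : σ.1 p = σ.1 p'
      · have hp' : p' = Fin.rev p := ((σ.2 p p').mp hdeg).resolve_left hpp
        have hdeg' : σ'.1 q = σ'.1 q' := by
          rw [hdeg, sub_self] at h1'
          exact hDF.1 γ' (sub_eq_zero.mp h1'.symm)
        have hq' : q' = Fin.rev q := ((σ'.2 q q').mp hdeg').resolve_left hqq
        subst hp' hq'
        have hxp : x p ≠ 0 := by
          intro h; exact hpp ((x0 p).mp h).symm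
        have hxq : x q ≠ 0 := by
          intro h; exact hqq ((x0 q).mp h).symm
        have e1 : s γ σ * x p - s γ σ * x (Fin.rev p) = 2 * (s γ σ * x p) := by
          rw [xrev]; ring
        have e2 : s γ' σ' * x q - s γ' σ' * x (Fin.rev q) = 2 * (s γ' σ' * x q) := by
          rw [xrev]; ring
        rw [e1, e2, φ.mul' _ _ h2F (mul_ne_zero (hs0 _ _) hxp),
          φ.mul' _ _ h2F (mul_ne_zero (hs0 _ _) hxq)] at h4'
        have h5 := add_left_cancel h4'
        -- representatives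
        have small : ∀ p : Fin k, Fin.rev p ≠ p → p.val < r ∨ (Fin.rev p).val < r := by
          intro p hp
          by_contra hcon
          push Not at hcon
          apply hp
          apply Fin.ext
          obtain ⟨a1, a2⟩ := hcon
          rw [Fin.val_rev] at a2 ⊢
          have := p.2
          omega
        have flip : ∀ (γ : Γ) (σ : Fold k) (p : Fin k), x p ≠ 0 →
            φ.cl (s γ σ * x (Fin.rev p)) = φ.cl (s γ σ * x p) := by
          intro γ σ p hp
          rw [xrev, mul_neg, φneg _ (mul_ne_zero (hs0 _ _) hp)]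
        have fin : γ = γ' ∧ σ = σ' ∧ (q = p ∨ q = Fin.rev p) := by
          rcases small p hpp with ha | ha <;> rcases small q hqq with hb | hb
          · obtain ⟨b1, b2, b3⟩ := linj γ γ' σ σ' p q ha hb h5
            exact ⟨b1, b2, Or.inl b3.symm⟩
          · rw [← flip γ' σ' q hxq] at h5
            obtain ⟨b1, b2, b3⟩ := linj γ γ' σ σ' p (Fin.rev q) ha hb h5
            exact ⟨b1, b2, Or.inr (by rw [b3, Fin.rev_rev])⟩
          · rw [← flip γ σ p hxp] at h5
            obtain ⟨b1, b2, b3⟩ := linj γ γ' σ σ' (Fin.rev p) q ha hb h5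
            exact ⟨b1, b2, Or.inr b3.symm⟩
          · rw [← flip γ σ p hxp, ← flip γ' σ' q hxq] at h5
            obtain ⟨b1, b2, b3⟩ := linj γ γ' σ σ' (Fin.rev p) (Fin.rev q) ha hb h5
            exact ⟨b1, b2, Or.inl (Fin.rev_injective b3).symm⟩
        obtain ⟨rfl, rfl, h6⟩ := fin
        refine ⟨rfl, ?_⟩
        rcases h6 with rfl | rfl
        · exact Or.inl ⟨rfl, rfl⟩
        · exact Or.inr ⟨rfl, rfl, sym⟩
      · obtain ⟨rfl, ha, hb⟩ := dfu γ γ' _ _ _ _ hdeg h1'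
        have ht : (σ, p, p') ∈ inc k (σ.1 p) (σ.1 p') := by rw [mem_inc]; exact ⟨rfl, rfl⟩
        have ht' : (σ', q, q') ∈ inc k (σ.1 p) (σ.1 p') := by
          rw [mem_inc]; exact ⟨ha.symm, hb.symm⟩
        have hc : c γ (σ, p, p') = c γ (σ', q, q') := by
          show φ.cl (s γ σ * (x p - x p')) = φ.cl (s γ σ' * (x q - x q'))
          rw [mul_sub, mul_sub]; exact h4'
        rcases K1 γ _ _ hdeg _ ht _ ht' hc with h5 | h5
        · simp only [Prod.mk.injEq] at h5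
          obtain ⟨rfl, rfl, rfl⟩ := h5
          exact ⟨rfl, Or.inl ⟨rfl, rfl⟩⟩
        · simp only [Prod.mk.injEq] at h5
          obtain ⟨rfl, rfl, rfl⟩ := h5
          exact ⟨rfl, Or.inr ⟨rfl, rfl, sym⟩⟩
    · -- type I and type II
      exfalso
      have h1' : B γ (σ.1 p) - B γ (σ.1 p') = B γ' q - B γ' q' := h1
      have h4' : φ.cl (s γ σ * x p - s γ σ * x p') = φ.cl (u γ' b' q - u γ' b' q') := h4
      have hqq : q ≠ q' := by rintro rfl; exact h3 (sub_self _)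
      obtain ⟨rfl, ha, hb⟩ := dfu γ' γ q q' _ _ hqq h1'.symm
      apply T2 γ' b' q q' hqq
      rw [← h4', Finset.mem_image]
      refine ⟨(σ, p, p'), ?_, ?_⟩
      · rw [mem_inc]; exact ⟨ha.symm, hb.symm⟩
      · show φ.cl (s γ' σ * (x p - x p')) = _
        rw [mul_sub]
    · exact absurd (sub_self _) h3
    · -- type II and type I
      exfalso
      have h1' : B γ p - B γ p' = B γ' (σ'.1 q) - B γ' (σ'.1 q') := h1
      have h4' : φ.cl (u γ b p - u γ b p') = φ.cl (s γ' σ' * x q - s γ' σ' * x q') := h4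
      have hpp : p ≠ p' := by rintro rfl; exact h2 (sub_self _)
      obtain ⟨rfl, ha, hb⟩ := dfu γ γ' p p' _ _ hpp h1'
      apply T2 γ b p p' hpp
      rw [h4', Finset.mem_image]
      refine ⟨(σ', q, q'), ?_, ?_⟩
      · rw [mem_inc]; exact ⟨ha.symm, hb.symm⟩
      · show φ.cl (s γ σ' * (x q - x q')) = _
        rw [mul_sub]
    · -- type II and type II
      have h1' : B γ p - B γ p' = B γ' q - B γ' q' := h1
      have h4' : φ.cl (u γ b p - u γ b p') = φ.cl (u γ' b' q - u γ' b' q') := h4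
      have hpp : p ≠ p' := by rintro rfl; exact h2 (sub_self _)
      obtain ⟨rfl, rfl, rfl⟩ := dfu γ γ' p p' _ _ hpp h1'
      have := T3 γ b b' p p' hpp h4'
      subst this
      exact ⟨rfl, Or.inl ⟨rfl, rfl⟩⟩

end Pool.Agent.LibSteiner
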