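import Mathlib

/-! Cyclotomic classes in finite fields, elementary second moment method. -/

namespace Pool.Agent.LibSteiner

open Finset

/-- A class function on a field: a surjective additive valued logarithm on nonzero elements. -/
structure ClassFun (F : Type) [Field F] (A : Type) [AddCommGroup A] where
  cl : F → A
  mul' : ∀ x y, x ≠ 0 → y ≠ 0 → cl (x * y) = cl x + cl y
  surj' : ∀ a, ∃ x, x ≠ 0 ∧ cl x = a

namespace ClassFun

variable {F : Type} [Field F] {A : Type} [AddCommGroup A] (φ : ClassFun F A)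

lemma one : φ.cl 1 = 0 := by
  have h := φ.mul' 1 1 one_ne_zero one_ne_zero
  rw [mul_one] at h
  exact left_eq_add.mp h

lemma div' {x y : F} (hx : x ≠ 0) (hy : y ≠ 0) : φ.cl (x / y) = φ.cl x - φ.cl y := by
  have h := φ.mul' (x / y) y (div_ne_zero hx hy) hy
  rw [div_mul_cancel₀ _ hy] at h
  rw [h]; abel

variable [Fintype F] [DecidableEq F] [Fintype A] [DecidableEq A]

/-- the fibre over a class -/
def fib (a : A) : Finset F := univ.filter (fun x => x ≠ 0 ∧ φ.cl x = a)

lemma mem_fib (a : A) (x : F) : x ∈ φ.fib a ↔ x ≠ 0 ∧ φ.cl x = a := by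
  simp [fib]

lemma card_fib (a : A) : (φ.fib a).card = (φ.fib 0).card := by
  obtain ⟨y, hy, hya⟩ := φ.surj' a
  symm
  refine Finset.card_bij (fun x _ => x * y) ?_ ?_ ?_
  · intro x hx
    rw [mem_fib] at hx ⊢
    refine ⟨mul_ne_zero hx.1 hy, ?_⟩
    rw [φ.mul' _ _ hx.1 hy, hx.2, hya, zero_add]
  · intro x _ x' _ h
    exact mul_right_cancel₀ hy h
  · intro z hz
    rw [mem_fib] at hz
    refine ⟨z / y, ?_, div_mul_cancel₀ _ hy⟩
    rw [mem_fib]
    refine ⟨div_ne_zero hz.1 hy, ?_⟩
    rw [φ.div' hz.1 hy, hz.2, hya, sub_self]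

lemma card_mul_fib : Fintype.card A * (φ.fib 0).card = Fintype.card F - 1 := by
  have h1 : (univ.filter (fun x : F => x ≠ 0)).card = ∑ a : A, (φ.fib a).card := by
    rw [Finset.card_eq_sum_card_fiberwise (f := φ.cl) (t := univ) (fun _ _ => by simp)]
    refine Finset.sum_congr rfl ?_
    intro a _
    congr 1
    ext x
    simp [fib]
  have h2 : (univ.filter (fun x : F => x ≠ 0)).card = Fintype.card F - 1 := by
    rw [Finset.filter_ne' univ (0 : F), Finset.card_erase_of_mem (Finset.mem_univ _), Finset.card_univ]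
  rw [← h2, h1, Finset.sum_congr rfl (fun a _ => φ.card_fib a)]
  simp

lemma fib_pos : 0 < (φ.fib 0).card := by
  rw [Finset.card_pos]
  exact ⟨1, by rw [mem_fib]; exact ⟨one_ne_zero, φ.one⟩⟩

/-- number of `x` such that `x` and `x + d` are nonzero and of the same class -/
lemma card_adj {d : F} (hd : d ≠ 0) :
    (univ.filter (fun x : F => x ≠ 0 ∧ x + d ≠ 0 ∧ φ.cl x = φ.cl (x + d))).card + 1
      = (φ.fib 0).card := by
  have h1 : ((φ.fib 0).erase 1).card + 1 = (φ.fib 0).card := by
    apply Finset.card_erase_add_one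
    rw [mem_fib]; exact ⟨one_ne_zero, φ.one⟩
  rw [← h1]
  congr 1
  refine Finset.card_bij (fun x _ => (x + d) / x) ?_ ?_ ?_
  · intro x hx
    simp only [Finset.mem_filter, Finset.mem_univ, true_and] at hx
    obtain ⟨hx0, hxd, hc⟩ := hx
    rw [Finset.mem_erase, mem_fib]
    refine ⟨?_, div_ne_zero hxd hx0, ?_⟩
    · intro h
      rw [div_eq_one_iff_eq hx0] at h
      apply hd
      simpa using h
    · rw [φ.div' hxd hx0, hc, sub_self]
  · intro x hx y hy h
    simp only [Finset.mem_filter, Finset.mem_univ, true_and] at hx hy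
    have hx0 := hx.1
    have hy0 := hy.1
    have : (x + d) * y = (y + d) * x := by
      rwa [div_eq_div_iff hx0 hy0] at h
    have h2 : d * y = d * x := by linear_combination this
    exact (mul_left_cancel₀ hd h2).symm
  · intro z hz
    rw [Finset.mem_erase, mem_fib] at hz
    obtain ⟨hz1, hz0, hzc⟩ := hz
    have hz1' : z - 1 ≠ 0 := sub_ne_zero.mpr hz1
    have hx0 : d / (z - 1) ≠ 0 := div_ne_zero hd hz1'
    have hxd : d / (z - 1) + d = z * (d / (z - 1)) := by
      field_simp
      ring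
    refine ⟨d / (z - 1), ?_, ?_⟩
    · simp only [Finset.mem_filter, Finset.mem_univ, true_and]
      refine ⟨hx0, ?_, ?_⟩
      · rw [hxd]; exact mul_ne_zero hz0 hx0
      · rw [hxd, φ.mul' _ _ hz0 hx0, hzc, zero_add]
    · show (d / (z - 1) + d) / (d / (z - 1)) = z
      rw [hxd, mul_div_cancel_right₀ _ hx0]

end ClassFun

end Pool.Agent.LibSteiner
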