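import Pool.Agent.LibSteiner.Cls

namespace Pool.Agent.LibSteiner

/-- Existence of a class function with `m` classes on `ZMod p`. -/
theorem exists_classFun (p : ℕ) [Fact p.Prime] (m g : ℕ) (hm : 0 < m) (hg : 0 < g)
    (h : m * g ∣ p - 1) :
    ∃ φ : ClassFun (ZMod p) (ZMod m), ∀ x, x ≠ 0 → x ^ g = 1 → φ.cl x = 0 := by
  classical
  have hp : p.Prime := Fact.out
  have hp1 : 0 < p - 1 := Nat.sub_pos_of_lt hp.one_lt
  have : NeZero (p - 1) := ⟨hp1.ne'⟩
  have : NeZero m := ⟨hm.ne'⟩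
  have hmd : m ∣ p - 1 := dvd_trans (Dvd.intro g rfl) h
  have hcard : Nat.card (ZMod p)ˣ = p - 1 := by
    rw [Nat.card_eq_fintype_card, ZMod.card_units]
  obtain ⟨u0, hu0⟩ := IsCyclic.exists_generator (α := (ZMod p)ˣ)
  let e := zmodMulEquivOfGenerator hu0 hcard
  let lg : (ZMod p)ˣ → ZMod (p - 1) := fun u => Multiplicative.toAdd (e.symm u)
  have lg_mul : ∀ u v, lg (u * v) = lg u + lg v := by
    intro u v
    show Multiplicative.toAdd (e.symm (u * v)) = _
    rw [map_mul, toAdd_mul]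
  have lg_pow : ∀ u (n : ℕ), lg (u ^ n) = n • lg u := by
    intro u n
    show Multiplicative.toAdd (e.symm (u ^ n)) = _
    rw [map_pow, toAdd_pow]
  have lg_one : lg 1 = 0 := by
    show Multiplicative.toAdd (e.symm 1) = 0
    rw [map_one, toAdd_one]
  let c : ZMod (p - 1) →+* ZMod m := ZMod.castHom hmd (ZMod m)
  let cl : ZMod p → ZMod m := fun x => if hx : x = 0 then 0 else c (lg (Units.mk0 x hx))
  have hcl : ∀ x (hx : x ≠ 0), cl x = c (lg (Units.mk0 x hx)) := by
    intro x hx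
    show (if hx : x = 0 then 0 else c (lg (Units.mk0 x hx))) = _
    rw [dif_neg hx]
  refine ⟨⟨cl, ?_, ?_⟩, ?_⟩
  · intro x y hx hy
    rw [hcl _ hx, hcl _ hy, hcl _ (mul_ne_zero hx hy), ← map_add, ← lg_mul]
    congr 2
    ext; simp
  · intro a
    refine ⟨((e (Multiplicative.ofAdd (a.val : ZMod (p - 1))) : (ZMod p)ˣ) : ZMod p), ?_, ?_⟩
    · exact Units.ne_zero _
    · rw [hcl _ (Units.ne_zero _)]
      rw [Units.mk0_val]
      show c (Multiplicative.toAdd (e.symm (e _))) = a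
      rw [MulEquiv.symm_apply_apply, toAdd_ofAdd, map_natCast, ZMod.natCast_zmod_val]
  · intro x hx hxg
    show cl x = 0
    rw [hcl _ hx]
    have h1 : (Units.mk0 x hx) ^ g = 1 := by
      ext; simpa using hxg
    have h2 : g • lg (Units.mk0 x hx) = 0 := by
      rw [← lg_pow, h1, lg_one]
    set b := lg (Units.mk0 x hx) with hb
    have h3 : ((g * b.val : ℕ) : ZMod (p - 1)) = 0 := by
      rw [Nat.cast_mul, ZMod.natCast_zmod_val, ← nsmul_eq_mul]; exact h2
    rw [ZMod.natCast_eq_zero_iff] at h3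
    have h4 : g * m ∣ g * b.val := by
      rw [mul_comm g m]; exact dvd_trans h h3
    have h5 : m ∣ b.val := (mul_dvd_mul_iff_left hg.ne').mp h4
    have h6 : c ((b.val : ℕ) : ZMod (p - 1)) = 0 := by
      rw [map_natCast, ZMod.natCast_eq_zero_iff]; exact h5
    rwa [ZMod.natCast_zmod_val] at h6

/-- Reducing a class function modulo a divisor. -/
def ClassFun.red {F : Type} [Field F] {m : ℕ} (φ : ClassFun F (ZMod m)) {n : ℕ} (h : n ∣ m)
    [NeZero n] : ClassFun F (ZMod n) where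
  cl := fun x => ZMod.castHom h (ZMod n) (φ.cl x)
  mul' := by
    intro x y hx hy
    rw [φ.mul' x y hx hy, map_add]
  surj' := by
    intro a
    obtain ⟨x, hx, hxa⟩ := φ.surj' ((a.val : ℕ) : ZMod m)
    refine ⟨x, hx, ?_⟩
    rw [hxa, map_natCast, ZMod.natCast_zmod_val]

lemma ClassFun.red_cl {F : Type} [Field F] {m : ℕ} (φ : ClassFun F (ZMod m)) {n : ℕ} (h : n ∣ m)
    [NeZero n] (x : F) : (φ.red h).cl x = ZMod.castHom h (ZMod n) (φ.cl x) := rfl

end Pool.Agent.LibSteiner
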