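import Pool.Agent.LibSteiner.Mix
import Pool.Agent.LibSteiner.Ex

namespace Pool.Agent.LibSteiner

open Finset

/-- Difference family with base blocks `B γ` in an abelian group. -/
def IsDF {H Γ : Type} [AddCommGroup H] {k : ℕ} (B : Γ → Fin k → H) : Prop :=
  (∀ γ, Function.Injective (B γ)) ∧
  ∀ h : H, h ≠ 0 → ∃! t : Γ × Fin k × Fin k, B t.1 t.2.1 - B t.1 t.2.2 = h

lemma neg_cl {F : Type} [Field F] {A : Type} [AddCommGroup A] (φ : ClassFun F A)
    (h : φ.cl (-1) = 0) (x : F) (hx : x ≠ 0) : φ.cl (-x) = φ.cl x := by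
  have : -x = (-1) * x := by ring
  rw [this, φ.mul' _ _ (neg_ne_zero.mpr one_ne_zero) hx, h, zero_add]

theorem exists_DF (k : ℕ) (hk : 2 ≤ k) (N0 : ℕ) :
    ∃ (H : Type) (_ : AddCommGroup H) (_ : Fintype H) (Γ : Type) (_ : Fintype Γ)
      (B : Γ → Fin k → H), IsDF B ∧ N0 ≤ Fintype.card Γ := by
  classical
  let P := {t : Fin k × Fin k // t.1 < t.2}
  set m := Fintype.card P with hm
  have hm0 : 0 < m := by
    rw [hm, Fintype.card_pos_iff]
    exact ⟨⟨(⟨0, by omega⟩, ⟨1, by omega⟩), by
      show (⟨0, _⟩ : Fin k) < ⟨1, _⟩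
      rw [Fin.mk_lt_mk]; exact Nat.zero_lt_one⟩⟩
  have : NeZero m := ⟨hm0.ne'⟩
  let e : P ≃ ZMod m := Fintype.equivOfCardEq (by rw [ZMod.card])
  obtain ⟨Q, hQ⟩ := embed m k 1
  obtain ⟨p, hp, hpn, hpm⟩ := Nat.exists_prime_gt_modEq_one (k := m * 2)
    (max Q (N0 * (k * k)) + 2) (by positivity)
  have : Fact p.Prime := ⟨hp⟩
  have : NeZero p := ⟨hp.ne_zero⟩
  have hdvd : m * 2 ∣ p - 1 := (Nat.modEq_iff_dvd' hp.one_lt.le).mp hpm.symm
  obtain ⟨φ, hφ⟩ := exists_classFun p m 2 hm0 (by norm_num) hdvd
  have hneg : φ.cl (-1) = 0 := hφ _ (neg_ne_zero.mpr one_ne_zero) (by ring)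
  have hQF : Q ≤ Fintype.card (ZMod p) := by
    rw [ZMod.card]
    have := le_max_left Q (N0 * (k * k))
    omega
  obtain ⟨b, -, hb⟩ := hQ (ZMod p) (ZMod m) φ (by rw [ZMod.card]) hQF (fun _ => univ)
    (fun _ => by simp) (fun i j => if h : i < j then e ⟨(i, j), h⟩ else 0)
  have hb' : ∀ i j (h : i < j), b j - b i ≠ 0 ∧ φ.cl (b j - b i) = e ⟨(i, j), h⟩ := by
    intro i j h
    have := hb i j h
    rwa [dif_pos h] at this
  have hbinj : ∀ i j, i ≠ j → b i - b j ≠ 0 := by
    intro i j hij
    rcases lt_or_gt_of_ne hij with h | h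
    · have := (hb' i j h).1
      rw [← neg_sub]; exact neg_ne_zero.mpr this
    · exact (hb' j i h).1
  let Γ := {c : ZMod p // c ≠ 0 ∧ φ.cl c = 0 ∧ c.val < (-c).val}
  have hval : ∀ c : ZMod p, c ≠ 0 → c.val < (-c).val ∨ (-c).val < (-(-c)).val := by
    intro c hc
    rw [neg_neg]
    rcases lt_trichotomy c.val (-c).val with h | h | h
    · exact Or.inl h
    · exfalso
      have h1 : c = -c := ZMod.val_injective p h
      have h2 : (2 : ZMod p) * c = 0 := by linear_combination h1
      rcases mul_eq_zero.mp h2 with h3 | h3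
      · have : ((2 : ℕ) : ZMod p) = 0 := by exact_mod_cast h3
        rw [ZMod.natCast_eq_zero_iff] at this
        have := Nat.le_of_dvd (by norm_num) this
        omega
      · exact hc h3
    · exact Or.inr h
  let B : Γ → Fin k → ZMod p := fun γ a => γ.1 * b a
  have hdf : IsDF B := by
    refine ⟨?_, ?_⟩
    · intro γ i j hij
      by_contra hne
      have h1 : γ.1 * (b i - b j) = 0 := by
        have : γ.1 * b i = γ.1 * b j := hij
        linear_combination this
      rcases mul_eq_zero.mp h1 with h | h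
      · exact γ.2.1 h
      · exact hbinj i j hne h
    · intro h hh
      obtain ⟨⟨⟨i, j⟩, hij⟩, hP⟩ := e.surjective (φ.cl h)
      have hij' : i < j := hij
      obtain ⟨hd0, hdc⟩ := hb' i j hij'
      set c := h / (b j - b i) with hc
      have hc0 : c ≠ 0 := div_ne_zero hh hd0
      have hcc : φ.cl c = 0 := by
        rw [hc, φ.div' hh hd0, hdc, hP, sub_self]
      have hch : c * (b j - b i) = h := div_mul_cancel₀ _ hd0
      -- uniqueness helper
      have key : ∀ (γ : Γ) (i' j' : Fin k), B γ i' - B γ j' = h →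
          (γ.1 = c ∧ i' = j ∧ j' = i) ∨ (γ.1 = -c ∧ i' = i ∧ j' = j) := by
        intro γ i' j' hB
        have hB' : γ.1 * (b i' - b j') = h := by
          rw [← hB]; show _ = γ.1 * b i' - γ.1 * b j'; ring
        have hne : i' ≠ j' := by
          rintro rfl
          rw [sub_self, mul_zero] at hB'
          exact hh hB'.symm
        have hcl : φ.cl h = φ.cl (b i' - b j') := by
          rw [← hB', φ.mul' _ _ γ.2.1 (hbinj _ _ hne), γ.2.2.1, zero_add]
        rcases lt_or_gt_of_ne hne with hlt | hlt
        · right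
          have h2 := (hb' i' j' hlt).2
          have h3 : φ.cl (b i' - b j') = φ.cl (b j' - b i') := by
            rw [← neg_cl φ hneg _ (hb' i' j' hlt).1, neg_sub]
          rw [← hP, h3, h2] at hcl
          have h4 := e.injective hcl
          have h5 : (i, j) = (i', j') := congrArg Subtype.val h4
          obtain ⟨rfl, rfl⟩ := Prod.mk.inj h5
          refine ⟨?_, rfl, rfl⟩
          have : (γ.1 + c) * (b i - b j) = 0 := by linear_combination hB' - hch
          rcases mul_eq_zero.mp this with h6 | h6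
          · exact eq_neg_of_add_eq_zero_left h6
          · exact absurd h6 (hbinj _ _ hne)
        · left
          have h2 := (hb' j' i' hlt).2
          rw [← hP, h2] at hcl
          have h4 := e.injective hcl
          have h5 : (i, j) = (j', i') := congrArg Subtype.val h4
          obtain ⟨rfl, rfl⟩ := Prod.mk.inj h5
          refine ⟨?_, rfl, rfl⟩
          have : (γ.1 - c) * (b j - b i) = 0 := by linear_combination hB' - hch
          rcases mul_eq_zero.mp this with h6 | h6
          · exact sub_eq_zero.mp h6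
          · exact absurd h6 (hbinj _ _ hne)
      by_cases hv : c.val < (-c).val
      · refine ⟨(⟨c, hc0, hcc, hv⟩, j, i), ?_, ?_⟩
        · show c * b j - c * b i = h
          rw [← hch]; ring
        · rintro ⟨γ, i', j'⟩ hB
          rcases key γ i' j' hB with ⟨h1, rfl, rfl⟩ | ⟨h1, rfl, rfl⟩
          · congr 1
            exact Subtype.ext h1
          · exfalso
            have := γ.2.2.2
            rw [h1, neg_neg] at this
            exact absurd this (not_lt.mpr hv.le)
      · have hv' : (-c).val < (-(-c)).val := (hval c hc0).resolve_left hv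
        refine ⟨(⟨-c, neg_ne_zero.mpr hc0, by rw [neg_cl φ hneg _ hc0, hcc], hv'⟩, i, j), ?_, ?_⟩
        · show -c * b i - -c * b j = h
          rw [← hch]; ring
        · rintro ⟨γ, i', j'⟩ hB
          rcases key γ i' j' hB with ⟨h1, rfl, rfl⟩ | ⟨h1, rfl, rfl⟩
          · exfalso
            have := γ.2.2.2
            rw [h1] at this
            exact hv this
          · congr 1
            exact Subtype.ext h1
  refine ⟨ZMod p, inferInstance, inferInstance, Γ, inferInstance, B, hdf, ?_⟩
  -- counting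
  have hcount : p - 1 ≤ Fintype.card Γ * (k * k) := by
    have h1 : Fintype.card {h : ZMod p // h ≠ 0} ≤ Fintype.card (Γ × Fin k × Fin k) := by
      let f : {h : ZMod p // h ≠ 0} → Γ × Fin k × Fin k := fun h => (hdf.2 h.1 h.2).choose
      have hf : ∀ h, B (f h).1 (f h).2.1 - B (f h).1 (f h).2.2 = h.1 :=
        fun h => (hdf.2 h.1 h.2).choose_spec.1
      refine Fintype.card_le_of_injective f ?_
      intro x y hxy
      apply Subtype.ext
      rw [← hf x, ← hf y, hxy]
    have h2 : Fintype.card {h : ZMod p // h ≠ 0} = p - 1 := by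
      rw [Fintype.card_subtype_compl, Fintype.card_subtype_eq, ZMod.card]
    rw [h2] at h1
    simpa [Fintype.card_prod] using h1
  have h3 : N0 * (k * k) ≤ Fintype.card Γ * (k * k) := by
    have := le_max_right Q (N0 * (k * k))
    omega
  exact Nat.le_of_mul_le_mul_right h3 (by positivity)

end Pool.Agent.LibSteiner
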