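import Pool.Agent.LibSteiner.Vec

namespace Pool.Agent.LibSteiner

open Finset

/-- A relative family of base blocks in `H × F`, all differences with class labels. -/
structure RelFam (k : ℕ) {H F M : Type} [AddCommGroup H] [Field F] (cl : F → M)
    {J : Type} (f : J → Fin k → H × F) : Prop where
  inj : ∀ j, Function.Injective (f j)
  ex_row : ∀ h : H, h ≠ 0 → ∃ j p p', (f j p).1 - (f j p').1 = h ∧ (f j p).2 = (f j p').2
  ex : ∀ (h : H) (μ : M), ∃ j p p', (f j p).1 - (f j p').1 = h ∧ (f j p).2 - (f j p').2 ≠ 0 ∧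
    cl ((f j p).2 - (f j p').2) = μ
  uniq_row : ∀ j p p' j' q q', p ≠ p' → q ≠ q' →
    (f j p).1 - (f j p').1 = (f j' q).1 - (f j' q').1 → (f j p).2 = (f j p').2 →
    (f j' q).2 = (f j' q').2 → j = j' ∧ p = q ∧ p' = q' ∧ ∀ a, (f j a).2 = 0
  uniq : ∀ j p p' j' q q', (f j p).1 - (f j p').1 = (f j' q).1 - (f j' q').1 →
    (f j p).2 - (f j p').2 ≠ 0 → (f j' q).2 - (f j' q').2 ≠ 0 →
    cl ((f j p).2 - (f j p').2) = cl ((f j' q).2 - (f j' q').2) →
    j = j' ∧ ((q = p ∧ q' = p') ∨ (q = Fin.rev p ∧ q' = Fin.rev p' ∧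
      ∀ a, (f j (Fin.rev a)).1 = (f j a).1 ∧ (f j (Fin.rev a)).2 = -(f j a).2))

/-- folding maps -/
def Fold (k : ℕ) : Type := {σ : Fin k → Fin k // ∀ p q, σ p = σ q ↔ (q = p ∨ q = Fin.rev p)}

noncomputable instance (k : ℕ) : Fintype (Fold k) := by
  classical
  unfold Fold
  infer_instance

noncomputable instance (k : ℕ) : DecidableEq (Fold k) := Classical.decEq _

lemma fold_nonempty (k : ℕ) : Nonempty (Fold k) := by
  refine ⟨⟨fun p => if p.val ≤ (Fin.rev p).val then p else Fin.rev p, ?_⟩⟩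
  intro p q
  constructor
  · intro h
    have hv := congrArg Fin.val h
    by_cases h1 : p.val ≤ (Fin.rev p).val <;> by_cases h2 : q.val ≤ (Fin.rev q).val
    · simp only [h1, h2, if_true] at hv
      exact Or.inl (Fin.ext hv.symm)
    · simp only [h1, h2, if_true, if_false] at hv
      right
      apply Fin.ext
      rw [Fin.val_rev] at hv ⊢
      have := p.2; have := q.2
      omega
    · simp only [h1, h2, if_true, if_false] at hv
      exact Or.inr (Fin.ext hv.symm)
    · simp only [h1, h2, if_false] at hv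
      left
      apply Fin.ext
      rw [Fin.val_rev, Fin.val_rev] at hv
      have := p.2; have := q.2
      omega
  · rintro (rfl | rfl)
    · rfl
    · show (if p.val ≤ (Fin.rev p).val then p else Fin.rev p) =
        (if (Fin.rev p).val ≤ (Fin.rev (Fin.rev p)).val then Fin.rev p else Fin.rev (Fin.rev p))
      rw [Fin.rev_rev]
      by_cases h1 : p.val ≤ (Fin.rev p).val <;> by_cases h2 : (Fin.rev p).val ≤ p.val
      · simp only [h1, h2, if_true]
        exact Fin.ext (le_antisymm h1 h2)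
      · simp only [h1, h2, if_true, if_false]
      · simp only [h1, h2, if_true, if_false]
      · omega

/-- incidences of folding maps with an ordered pair -/
noncomputable def inc (k : ℕ) (a a' : Fin k) : Finset (Fold k × Fin k × Fin k) :=
  univ.filter (fun t => t.1.1 t.2.1 = a ∧ t.1.1 t.2.2 = a')

lemma mem_inc (k : ℕ) (a a' : Fin k) (t : Fold k × Fin k × Fin k) :
    t ∈ inc k a a' ↔ t.1.1 t.2.1 = a ∧ t.1.1 t.2.2 = a' := by
  simp [inc]

lemma exists_perm {k : ℕ} {a a' b b' : Fin k} (h : a ≠ a') (h' : b ≠ b') :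
    ∃ π : Equiv.Perm (Fin k), π a = b ∧ π a' = b' := by
  classical
  refine ⟨(Equiv.swap (Equiv.swap a b a') b') * (Equiv.swap a b), ?_, ?_⟩
  · rw [Equiv.Perm.mul_apply, Equiv.swap_apply_left]
    apply Equiv.swap_apply_of_ne_of_ne
    · intro hb
      apply h
      have : Equiv.swap a b a' = Equiv.swap a b a := by rw [Equiv.swap_apply_left]; exact hb.symm
      exact ((Equiv.swap a b).injective this).symm
    · exact h'
  · rw [Equiv.Perm.mul_apply, Equiv.swap_apply_left]

lemma card_inc (k : ℕ) {a a' b b' : Fin k} (h : a ≠ a') (h' : b ≠ b') :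
    (inc k a a').card = (inc k b b').card := by
  obtain ⟨π, h1, h2⟩ := exists_perm h h'
  let act : Equiv.Perm (Fin k) → Fold k → Fold k := fun π σ =>
    ⟨fun p => π (σ.1 p), fun p q => by rw [π.injective.eq_iff]; exact σ.2 p q⟩
  refine Finset.card_bij (fun t _ => (act π t.1, t.2)) ?_ ?_ ?_
  · intro t ht
    rw [mem_inc] at ht ⊢
    exact ⟨(congrArg π ht.1).trans h1, (congrArg π ht.2).trans h2⟩
  · rintro ⟨σ, t⟩ _ ⟨σ', t'⟩ _ h
    have e1 : act π σ = act π σ' := (Prod.mk.inj h).1
    have e2 : t = t' := (Prod.mk.inj h).2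
    have e3 : σ = σ' := by
      apply Subtype.ext
      funext p
      exact π.injective (congrFun (congrArg Subtype.val e1) p)
    rw [e2, e3]
  · rintro ⟨σ, t⟩ ht
    rw [mem_inc] at ht
    refine ⟨(act π.symm σ, t), ?_, ?_⟩
    · rw [mem_inc]
      refine ⟨?_, ?_⟩
      · show π.symm (σ.1 t.1) = a
        rw [ht.1, ← h1, Equiv.symm_apply_apply]
      · show π.symm (σ.1 t.2) = a'
        rw [ht.2, ← h2, Equiv.symm_apply_apply]
    · show (act π (act π.symm σ), t) = (σ, t)
      congr 1
      apply Subtype.ext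
      funext p
      show π (π.symm (σ.1 p)) = σ.1 p
      rw [Equiv.apply_symm_apply]

end Pool.Agent.LibSteiner
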