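import Pool.Agent.LibSteiner.Asm

namespace Pool.Agent.LibSteiner

universe u

/-- translation action of a group on functions -/
def act {G : Type u} [Group G] {F : Type} (g : G) (v : G → F) : G → F := fun x => v (g⁻¹ * x)

section

variable {G : Type u} [Group G] {F : Type} [Field F]

lemma act_one (v : G → F) : act 1 v = v := by
  funext x; simp [act]

lemma act_mul (g h : G) (v : G → F) : act (g * h) v = act g (act h v) := by
  funext x; simp [act, mul_assoc]

lemma act_smul (g : G) (c : F) (v : G → F) : act g (c • v) = c • act g v := by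
  funext x; simp [act]

lemma act_add (g : G) (v w : G → F) : act g (v + w) = act g v + act g w := by
  funext x; simp [act]

lemma act_zero (g : G) : act g (0 : G → F) = 0 := by
  funext x; simp [act]

lemma act_ne_zero (g : G) (v : G → F) (h : v ≠ 0) : act g v ≠ 0 := by
  intro h1
  apply h
  have h2 := congrArg (act g⁻¹) h1
  rwa [← act_mul, inv_mul_cancel, act_one, act_zero] at h2

lemma pow_act (t : G) (a : F) (ρ : G → F) (h : a • act t ρ = ρ) :
    ∀ n : ℕ, a ^ n • act (t ^ n) ρ = ρ := by
  intro n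
  induction n with
  | zero => rw [pow_zero, pow_zero, act_one, one_smul]
  | succ n ih =>
    rw [pow_succ a n, pow_succ t n, act_mul, mul_smul, ← act_smul, ← act_smul, h, act_smul]
    exact ih

/-- Existence of the invariant class function on directions. -/
theorem exists_kappa [Finite G] {M : Type} [AddCommGroup M] (φ : ClassFun F M)
    (hφ : ∀ x, x ≠ 0 → x ^ Nat.card G = 1 → φ.cl x = 0) :
    ∃ κ : (G → F) → M, ∀ (c : F) (g : G) (v : G → F), c ≠ 0 → v ≠ 0 →
      κ (c • act g v) = φ.cl c + κ v := by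
  classical
  let S : Setoid (G → F) :=
    { r := fun v w => ∃ c : F, c ≠ 0 ∧ ∃ g : G, w = c • act g v
      iseqv := by
        refine ⟨?_, ?_, ?_⟩
        · intro v
          exact ⟨1, one_ne_zero, 1, by rw [act_one, one_smul]⟩
        · rintro v w ⟨c, hc, g, rfl⟩
          refine ⟨c⁻¹, inv_ne_zero hc, g⁻¹, ?_⟩
          rw [act_smul, ← act_mul, inv_mul_cancel, act_one, smul_smul, inv_mul_cancel₀ hc, one_smul]
        · rintro v w z ⟨c, hc, g, rfl⟩ ⟨c', hc', g', rfl⟩
          refine ⟨c' * c, mul_ne_zero hc' hc, g' * g, ?_⟩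
          rw [act_smul, ← act_mul, smul_smul] }
  have hrep : ∀ v : G → F, ∃ c : F, c ≠ 0 ∧ ∃ g : G, v = c • act g (Quotient.out (Quotient.mk S v)) := by
    intro v
    have h : S.r (Quotient.out (Quotient.mk S v)) v := Quotient.exact (Quotient.out_eq (Quotient.mk S v))
    exact h
  choose c hc g hg using hrep
  refine ⟨fun v => φ.cl (c v), ?_⟩
  intro d h v hd hv
  set w := d • act h v with hw
  have hq : Quotient.mk S w = Quotient.mk S v := by
    apply Quotient.sound
    show S.r w v
    exact S.iseqv.symm ⟨d, hd, h, rfl⟩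
  set ρ := Quotient.out (Quotient.mk S v) with hρ
  have h1 : v = c v • act (g v) ρ := hg v
  have h2 : w = c w • act (g w) ρ := by
    have := hg w
    rwa [hq] at this
  have hρ0 : ρ ≠ 0 := by
    intro h0
    apply hv
    rw [h1, h0, act_zero, smul_zero]
  have h3 : c w • act (g w) ρ = (d * c v) • act (h * g v) ρ := by
    rw [← h2, hw]
    conv_lhs => rw [h1]
    rw [act_smul, smul_smul, act_mul]
  have h4 : ((c w)⁻¹ * (d * c v)) • act ((g w)⁻¹ * (h * g v)) ρ = ρ := by
    rw [act_mul, mul_smul, ← act_smul, ← act_smul, ← h3, act_smul, act_smul, ← act_mul,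
      inv_mul_cancel, act_one, smul_smul, inv_mul_cancel₀ (hc w), one_smul]
  have h5 := pow_act _ _ _ h4 (Nat.card G)
  rw [pow_card_eq_one', act_one] at h5
  have h6 : ((c w)⁻¹ * (d * c v)) ^ Nat.card G = 1 := by
    obtain ⟨y, hy⟩ : ∃ y, ρ y ≠ 0 := by
      by_contra hcon
      push Not at hcon
      exact hρ0 (funext hcon)
    have h7 := congrFun h5 y
    rw [Pi.smul_apply, smul_eq_mul] at h7
    exact mul_right_cancel₀ hy (h7.trans (one_mul _).symm)
  have h8 : (c w)⁻¹ * (d * c v) ≠ 0 := mul_ne_zero (inv_ne_zero (hc w)) (mul_ne_zero hd (hc v))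
  have h9 := hφ _ h8 h6
  have h10 : φ.cl (c w * ((c w)⁻¹ * (d * c v))) = φ.cl (c w) := by
    rw [φ.mul' _ _ (hc w) h8, h9, add_zero]
  rw [← mul_assoc, mul_inv_cancel₀ (hc w), one_mul, φ.mul' _ _ hd (hc v)] at h10
  exact h10.symm

end

end Pool.Agent.LibSteiner
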