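import Pool.Agent.LibSteiner.Cls

namespace Pool.Agent.LibSteiner

open Finset

namespace ClassFun

variable {F : Type} [Field F] {A : Type} [AddCommGroup A] (φ : ClassFun F A)
variable [Fintype F] [DecidableEq F] [Fintype A] [DecidableEq A]

/-- indicator -/
def ind (s x : F) (a : A) : ℤ := if s - x ≠ 0 ∧ φ.cl (s - x) = a then 1 else 0

omit [Fintype F] in
lemma sum_ind (s x : F) : ∑ a : A, φ.ind s x a = if s - x ≠ 0 then 1 else 0 := by
  by_cases h : s - x ≠ 0
  · simp only [ind, h, true_and, if_true, ne_eq, not_false_eq_true]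
    rw [Finset.sum_ite_eq]; simp
  · simp only [ind, h, false_and, if_false, Finset.sum_const_zero]

omit [Fintype F] in
lemma sum_ind_mul (s s' x : F) : ∑ a : A, φ.ind s x a * φ.ind s' x a =
    if s - x ≠ 0 ∧ s' - x ≠ 0 ∧ φ.cl (s - x) = φ.cl (s' - x) then 1 else 0 := by
  by_cases h : s - x ≠ 0
  · by_cases h' : s' - x ≠ 0
    · simp only [ind, h, h', true_and, ne_eq, not_false_eq_true, ite_mul, one_mul, zero_mul]
      rw [Finset.sum_ite_eq]
      simp only [Finset.mem_univ, if_true, eq_comm]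
    · simp [ind, h']
  · simp [ind, h]

omit [Fintype A] [DecidableEq A] in
lemma sum_x_one (s : F) : ∑ x : F, (if s - x ≠ 0 then (1 : ℤ) else 0) = Fintype.card F - 1 := by
  rw [Finset.sum_ite]
  simp only [Finset.sum_const, nsmul_eq_mul, mul_one, smul_zero, add_zero]
  have : (univ.filter (fun x : F => s - x ≠ 0)) = univ.erase s := by
    ext x; simp [sub_eq_zero, eq_comm]
  rw [this, Finset.card_erase_of_mem (Finset.mem_univ _), Finset.card_univ]
  have : 0 < Fintype.card F := Fintype.card_pos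
  push_cast [Nat.cast_sub this]
  ring

lemma sum_x_two {s s' : F} (h : s ≠ s') :
    ∑ x : F, (if s - x ≠ 0 ∧ s' - x ≠ 0 ∧ φ.cl (s - x) = φ.cl (s' - x) then (1 : ℤ) else 0)
      = ((φ.fib 0).card : ℤ) - 1 := by
  rw [Finset.sum_ite]
  simp only [Finset.sum_const, nsmul_eq_mul, mul_one, smul_zero, add_zero]
  have hd : s' - s ≠ 0 := sub_ne_zero.mpr h.symm
  have h2 := φ.card_adj hd
  have h3 : (univ.filter (fun x : F => s - x ≠ 0 ∧ s' - x ≠ 0 ∧ φ.cl (s - x) = φ.cl (s' - x))).card
      = (univ.filter (fun x : F => x ≠ 0 ∧ x + (s' - s) ≠ 0 ∧ φ.cl x = φ.cl (x + (s' - s)))).card := by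
    refine Finset.card_bij (fun x _ => s - x) ?_ ?_ ?_
    · intro x hx
      simp only [Finset.mem_filter, Finset.mem_univ, true_and] at hx ⊢
      have : s - x + (s' - s) = s' - x := by ring
      rw [this]; exact hx
    · intro x _ y _ hxy
      simpa using hxy
    · intro y hy
      simp only [Finset.mem_filter, Finset.mem_univ, true_and] at hy
      refine ⟨s - y, ?_, by ring⟩
      simp only [Finset.mem_filter, Finset.mem_univ, true_and]
      have e1 : s - (s - y) = y := by ring
      have e2 : s' - (s - y) = y + (s' - s) := by ring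
      rw [e1, e2]; exact hy
  rw [h3]
  have : ((φ.fib 0).card : ℤ) = ((univ.filter (fun x : F => x ≠ 0 ∧ x + (s' - s) ≠ 0 ∧
      φ.cl x = φ.cl (x + (s' - s)))).card : ℤ) + 1 := by
    exact_mod_cast h2.symm
  rw [this]; ring

/-- number of elements of `S` in the class `a` around `x` -/
def deg (S : Finset F) (x : F) (a : A) : ℕ :=
  (S.filter (fun s => s - x ≠ 0 ∧ φ.cl (s - x) = a)).card

omit [Fintype F] [Fintype A] in
lemma deg_eq (S : Finset F) (x : F) (a : A) : (φ.deg S x a : ℤ) = ∑ s ∈ S, φ.ind s x a := by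
  simp [deg, ind]

lemma total (S : Finset F) :
    ∑ x : F, ∑ a : A, ((Fintype.card A : ℤ) * (φ.deg S x a : ℤ) - S.card) ^ 2
      ≤ (Fintype.card A : ℤ) ^ 2 * Fintype.card F * S.card := by
  set m : ℤ := (Fintype.card A : ℤ) with hm
  set q : ℤ := (Fintype.card F : ℤ) with hq
  set n : ℤ := (S.card : ℤ) with hn
  set κ : ℤ := ((φ.fib 0).card : ℤ) with hκ
  have hmk : m * κ = q - 1 := by
    have h := φ.card_mul_fib
    have hF : 1 ≤ Fintype.card F := Fintype.card_pos
    zify [hF] at h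
    exact h
  have h1 : ∑ x : F, ∑ a : A, (φ.deg S x a : ℤ) = n * (q - 1) := by
    simp_rw [deg_eq]
    have : ∀ x : F, ∑ a : A, ∑ s ∈ S, φ.ind s x a = ∑ s ∈ S, (if s - x ≠ 0 then (1:ℤ) else 0) := by
      intro x
      rw [Finset.sum_comm]
      exact Finset.sum_congr rfl (fun s _ => φ.sum_ind s x)
    rw [Finset.sum_congr rfl (fun x _ => this x), Finset.sum_comm]
    rw [Finset.sum_congr rfl (fun s _ => sum_x_one s)]
    simp [hn, hq]
    ring
  have h2 : ∑ x : F, ∑ a : A, (φ.deg S x a : ℤ) ^ 2 = n * (q - 1) + (n ^ 2 - n) * (κ - 1) := by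
    have e1 : ∀ x : F, ∑ a : A, (φ.deg S x a : ℤ) ^ 2 = ∑ s ∈ S, ∑ s' ∈ S,
        (if s - x ≠ 0 ∧ s' - x ≠ 0 ∧ φ.cl (s - x) = φ.cl (s' - x) then (1:ℤ) else 0) := by
      intro x
      simp_rw [deg_eq, pow_two, Finset.sum_mul_sum]
      rw [Finset.sum_comm]
      refine Finset.sum_congr rfl (fun s _ => ?_)
      rw [Finset.sum_comm]
      exact Finset.sum_congr rfl (fun s' _ => φ.sum_ind_mul s s' x)
    rw [Finset.sum_congr rfl (fun x _ => e1 x), Finset.sum_comm]
    have e2 : ∀ s ∈ S, ∑ x : F, ∑ s' ∈ S,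
        (if s - x ≠ 0 ∧ s' - x ≠ 0 ∧ φ.cl (s - x) = φ.cl (s' - x) then (1:ℤ) else 0)
        = (q - 1) + (n - 1) * (κ - 1) := by
      intro s hs
      rw [Finset.sum_comm, ← Finset.add_sum_erase S _ hs]
      congr 1
      · have : ∀ x : F, (if s - x ≠ 0 ∧ s - x ≠ 0 ∧ φ.cl (s - x) = φ.cl (s - x) then (1:ℤ) else 0)
            = if s - x ≠ 0 then 1 else 0 := by intro x; simp
        rw [Finset.sum_congr rfl (fun x _ => this x), sum_x_one]
      · rw [Finset.sum_congr rfl (fun s' hs' => φ.sum_x_two (Finset.ne_of_mem_erase hs').symm)]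
        rw [Finset.sum_const, Finset.card_erase_of_mem hs]
        have : 1 ≤ S.card := Finset.card_pos.mpr ⟨s, hs⟩
        rw [nsmul_eq_mul]
        push_cast [Nat.cast_sub this]
        rfl
    rw [Finset.sum_congr rfl e2, Finset.sum_const, nsmul_eq_mul, ← hn]
    ring
  have h3 : ∑ x : F, ∑ a : A, (m * (φ.deg S x a : ℤ) - n) ^ 2
      = m ^ 2 * (n * (q - 1) + (n ^ 2 - n) * (κ - 1)) - 2 * m * n * (n * (q - 1)) + q * m * n ^ 2 := by
    rw [← h2, ← h1]
    have : ∀ x : F, ∀ a : A, (m * (φ.deg S x a : ℤ) - n) ^ 2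
        = m ^ 2 * (φ.deg S x a : ℤ) ^ 2 - 2 * m * n * (φ.deg S x a : ℤ) + n ^ 2 := by
      intro x a; ring
    simp_rw [this]
    simp only [Finset.sum_add_distrib, Finset.sum_sub_distrib, ← Finset.mul_sum, Finset.sum_const,
      Finset.card_univ, nsmul_eq_mul]
    rw [← hm, ← hq]; ring
  rw [h3]
  have hm1 : 1 ≤ m := by
    have : 0 < Fintype.card A := Fintype.card_pos
    rw [hm]; exact_mod_cast this
  have hn0 : 0 ≤ n := by rw [hn]; positivity
  have hq1 : 1 ≤ q := by
    have : 0 < Fintype.card F := Fintype.card_pos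
    rw [hq]; exact_mod_cast this
  have hk : m ^ 2 * (n * (q - 1) + (n ^ 2 - n) * (κ - 1)) - 2 * m * n * (n * (q - 1)) + q * m * n ^ 2
      = m ^ 2 * q * n - m * n * (q - 1) - n ^ 2 * m * (m - 1) := by
    have : m ^ 2 * (n * (q - 1) + (n ^ 2 - n) * (κ - 1))
      = m ^ 2 * n * (q - 1) + m * (n ^ 2 - n) * (m * κ - m) := by ring
    rw [this, hmk]; ring
  rw [hk]
  have a1 : 0 ≤ m * n * (q - 1) := by
    have : 0 ≤ q - 1 := by linarith
    positivity
  have a2 : 0 ≤ n ^ 2 * m * (m - 1) := by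
    have : 0 ≤ m - 1 := by linarith
    positivity
  linarith

/-- For each class, few points have small degree. -/
lemma few_bad (S : Finset F) (a : A) (D : ℕ) (hS : Fintype.card F ≤ D * S.card) (hS0 : 0 < S.card) :
    (univ.filter (fun x : F => 2 * Fintype.card A * φ.deg S x a < S.card)).card
      ≤ 4 * (Fintype.card A) ^ 2 * D := by
  set m : ℤ := (Fintype.card A : ℤ) with hm
  set q : ℤ := (Fintype.card F : ℤ) with hq
  set n : ℤ := (S.card : ℤ) with hn
  set Bad := (univ.filter (fun x : F => 2 * Fintype.card A * φ.deg S x a < S.card)) with hBad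
  have hn0 : 0 < n := by rw [hn]; exact_mod_cast hS0
  have h := φ.total S
  rw [← hm, ← hq, ← hn] at h
  have h1 : ∑ x ∈ Bad, (m * (φ.deg S x a : ℤ) - n) ^ 2 ≤ m ^ 2 * q * n := by
    refine le_trans ?_ h
    refine le_trans (Finset.sum_le_sum_of_subset_of_nonneg (Finset.subset_univ Bad) ?_) ?_
    · intro x _ _; positivity
    · refine Finset.sum_le_sum (fun x _ => ?_)
      exact Finset.single_le_sum (f := fun a => (m * (φ.deg S x a : ℤ) - n) ^ 2)
        (fun a _ => by positivity) (Finset.mem_univ a)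
  have h2 : ∀ x ∈ Bad, n ^ 2 ≤ 4 * (m * (φ.deg S x a : ℤ) - n) ^ 2 := by
    intro x hx
    rw [hBad, Finset.mem_filter] at hx
    have hx' : 2 * m * (φ.deg S x a : ℤ) < n := by
      rw [hm, hn]; exact_mod_cast hx.2
    have hd : 0 ≤ (φ.deg S x a : ℤ) := by positivity
    have hm0 : 0 ≤ m := by rw [hm]; positivity
    nlinarith [mul_nonneg hm0 hd]
  have h3 : (Bad.card : ℤ) * n ^ 2 ≤ 4 * (m ^ 2 * q * n) := by
    calc (Bad.card : ℤ) * n ^ 2 = ∑ x ∈ Bad, n ^ 2 := by simp
      _ ≤ ∑ x ∈ Bad, 4 * (m * (φ.deg S x a : ℤ) - n) ^ 2 := Finset.sum_le_sum h2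
      _ = 4 * ∑ x ∈ Bad, (m * (φ.deg S x a : ℤ) - n) ^ 2 := by rw [Finset.mul_sum]
      _ ≤ 4 * (m ^ 2 * q * n) := by linarith
  have h4 : q ≤ D * n := by rw [hq, hn]; exact_mod_cast hS
  have h5 : (Bad.card : ℤ) * n ^ 2 ≤ (4 * m ^ 2 * D) * n ^ 2 := by
    refine le_trans h3 ?_
    have : m ^ 2 * q * n ≤ m ^ 2 * (D * n) * n := by
      have : 0 ≤ m ^ 2 := by positivity
      gcongr
    linarith
  have h6 : (Bad.card : ℤ) ≤ 4 * m ^ 2 * D := le_of_mul_le_mul_right h5 (by positivity)
  rw [hm] at h6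
  exact_mod_cast h6

end ClassFun

/-- Embedding lemma: all differences with prescribed classes, points in prescribed dense sets. -/
theorem embed (m : ℕ) : ∀ k D : ℕ, ∃ Q : ℕ, ∀ (F : Type) [Field F] [Fintype F] [DecidableEq F]
    (A : Type) [AddCommGroup A] [Fintype A] [DecidableEq A] (φ : ClassFun F A),
    Fintype.card A = m → Q ≤ Fintype.card F →
    ∀ (S : Fin k → Finset F), (∀ i, Fintype.card F ≤ D * (S i).card) →
    ∀ ℓ : Fin k → Fin k → A, ∃ x : Fin k → F, (∀ i, x i ∈ S i) ∧
      ∀ i j, i < j → x j - x i ≠ 0 ∧ φ.cl (x j - x i) = ℓ i j := by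
  intro k
  induction k with
  | zero =>
    intro D
    refine ⟨0, ?_⟩
    intro F _ _ _ A _ _ _ φ _ _ S _ ℓ
    exact ⟨fun i => i.elim0, fun i => i.elim0, fun i => i.elim0⟩
  | succ k ih =>
    intro D
    obtain ⟨Q, hQ⟩ := ih (2 * m * D)
    refine ⟨max Q (D * (k * (4 * m ^ 2 * D)) + 1), ?_⟩
    intro F _ _ _ A _ _ _ φ hA hF S hS ℓ
    have hF1 : Q ≤ Fintype.card F := le_trans (le_max_left _ _) hF
    have hF2 : D * (k * (4 * m ^ 2 * D)) + 1 ≤ Fintype.card F := le_trans (le_max_right _ _) hF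
    have hpos : ∀ i, 0 < (S i).card := by
      intro i
      rcases Nat.eq_zero_or_pos (S i).card with h | h
      · have := hS i
        rw [h, mul_zero] at this
        omega
      · exact h
    have hD : 0 < D := by
      rcases Nat.eq_zero_or_pos D with h | h
      · have := hS 0
        rw [h, zero_mul] at this
        omega
      · exact h
    set Bad : Fin k → Finset F := fun j =>
      univ.filter (fun x : F => 2 * Fintype.card A * φ.deg (S j.succ) x (ℓ 0 j.succ) < (S j.succ).card)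
      with hBad
    have hbad : (univ.biUnion Bad).card ≤ k * (4 * m ^ 2 * D) := by
      refine le_trans Finset.card_biUnion_le ?_
      refine le_trans (Finset.sum_le_card_nsmul _ _ (4 * m ^ 2 * D) ?_) ?_
      · intro j _
        have := φ.few_bad (S j.succ) (ℓ 0 j.succ) D (hS j.succ) (hpos _)
        rw [hA] at this
        rw [hBad]
        simpa [hA] using this
      · simp
    have hlt : (univ.biUnion Bad).card < (S 0).card := by
      have h0 := hS 0
      by_contra hcon
      push Not at hcon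
      have h1 : (S 0).card ≤ k * (4 * m ^ 2 * D) := le_trans hcon hbad
      have h2 : D * (S 0).card ≤ D * (k * (4 * m ^ 2 * D)) := Nat.mul_le_mul_left D h1
      omega
    obtain ⟨x0, hx0, hx0b⟩ := Finset.exists_mem_notMem_of_card_lt_card hlt
    have hgood : ∀ j : Fin k, (S j.succ).card ≤ 2 * m * φ.deg (S j.succ) x0 (ℓ 0 j.succ) := by
      intro j
      by_contra hcon
      push Not at hcon
      apply hx0b
      rw [Finset.mem_biUnion]
      refine ⟨j, Finset.mem_univ _, ?_⟩
      rw [hBad]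
      simp only [Finset.mem_filter, Finset.mem_univ, true_and]
      rw [hA]; exact hcon
    obtain ⟨x, hx, hxd⟩ := hQ F A φ hA hF1
      (fun j => (S j.succ).filter (fun s => s - x0 ≠ 0 ∧ φ.cl (s - x0) = ℓ 0 j.succ)) (by
        intro j
        have h1 := hgood j
        have h2 := hS j.succ
        unfold ClassFun.deg at h1
        calc Fintype.card F ≤ D * (S j.succ).card := h2
          _ ≤ D * (2 * m * _) := Nat.mul_le_mul_left D h1
          _ = _ := by ring) (fun i j => ℓ i.succ j.succ)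
    refine ⟨Fin.cons x0 x, ?_, ?_⟩
    · intro i
      refine Fin.cases ?_ ?_ i
      · simpa using hx0
      · intro j
        simp only [Fin.cons_succ]
        exact (Finset.mem_filter.mp (hx j)).1
    · intro i j
      refine Fin.cases ?_ ?_ i
      · refine Fin.cases ?_ ?_ j
        · intro h; exact absurd h (lt_irrefl _)
        · intro j _
          simp only [Fin.cons_succ, Fin.cons_zero]
          exact (Finset.mem_filter.mp (hx j)).2
      · intro i
        refine Fin.cases ?_ ?_ j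
        · intro h; exact absurd h (Fin.not_lt_zero _)
        · intro j h
          simp only [Fin.cons_succ]
          exact hxd i j (Fin.succ_lt_succ_iff.mp h)

end Pool.Agent.LibSteiner
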