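import Pool.Agent.LibSteiner.DF

namespace Pool.Agent.LibSteiner

open Finset

/-- the trivial equivalences between pairs -/
def Eqv {R : Type} [Neg R] (x x' y y' : R) : Prop :=
  (y = x ∧ y' = x') ∨ (y = x' ∧ y' = x) ∨ (y = -x ∧ y' = -x') ∨ (y = -x' ∧ y' = -x)

lemma Eqv.symm {R : Type} [AddGroup R] {x x' y y' : R} (h : Eqv x x' y y') : Eqv y y' x x' := by
  unfold Eqv at *
  rcases h with ⟨rfl, rfl⟩ | ⟨rfl, rfl⟩ | ⟨rfl, rfl⟩ | ⟨rfl, rfl⟩ <;> simp

lemma Eqv.trans {R : Type} [AddGroup R] {x x' y y' z z' : R} (h : Eqv x x' y y')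
    (h' : Eqv y y' z z') : Eqv x x' z z' := by
  unfold Eqv at *
  rcases h with ⟨rfl, rfl⟩ | ⟨rfl, rfl⟩ | ⟨rfl, rfl⟩ | ⟨rfl, rfl⟩ <;>
  rcases h' with ⟨rfl, rfl⟩ | ⟨rfl, rfl⟩ | ⟨rfl, rfl⟩ | ⟨rfl, rfl⟩ <;> simp

section

variable {F : Type} [Field F] [Fintype F] [DecidableEq F]
variable {A : Type} [AddCommGroup A] [Fintype A] [DecidableEq A]

lemma card_shift (φ : ClassFun F A) (z : F) (c : A) :
    (univ.filter (fun w : F => w - z ≠ 0 ∧ φ.cl (w - z) = c)).card ≤ (φ.fib 0).card := by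
  rw [← φ.card_fib c]
  refine Finset.card_le_card_of_injOn (fun w => w - z) ?_ ?_
  · intro w hw
    simp only [Finset.coe_filter, Finset.mem_univ, true_and, Set.mem_setOf_eq] at hw
    simp only [Finset.mem_coe, φ.mem_fib]
    exact hw
  · intro w _ w' _ h
    simpa using h

lemma card_ratio (φ : ClassFun F A) (z z' : F) (h : z ≠ z') :
    (univ.filter (fun w : F => w - z ≠ 0 ∧ w - z' ≠ 0 ∧ φ.cl (w - z) = φ.cl (w - z'))).card
      ≤ (φ.fib 0).card := by
  have hd : z - z' ≠ 0 := sub_ne_zero.mpr h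
  refine le_trans ?_ (Nat.le_of_lt_succ (Nat.lt_succ_of_lt (Nat.lt_of_succ_le (le_of_eq (φ.card_adj hd)))))
  refine Finset.card_le_card_of_injOn (fun w => w - z) ?_ ?_
  · intro w hw
    simp only [Finset.coe_filter, Finset.mem_univ, true_and, Set.mem_setOf_eq] at hw ⊢
    have : w - z + (z - z') = w - z' := by ring
    rw [this]
    exact hw
  · intro w _ w' _ h
    simpa using h

/-- the distinctness property of a symmetric set -/
def DX (φ : ClassFun F A) (X : Finset F) : Prop :=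
  ∀ x ∈ X, ∀ x' ∈ X, ∀ y ∈ X, ∀ y' ∈ X, x' ≠ x → x' ≠ -x → y' ≠ y → y' ≠ -y →
    φ.cl (x - x') = φ.cl (y - y') → Eqv x x' y y'

lemma normal_form (X : Finset F) (hX : ∀ z ∈ X, -z ∈ X) (w : F) (x x' : F)
    (hx : x ∈ insert w (insert (-w) X)) (hx' : x' ∈ insert w (insert (-w) X))
    (h1 : x' ≠ x) (h2 : x' ≠ -x) :
    (x ∈ X ∧ x' ∈ X) ∨ ∃ z ∈ X, Eqv w z x x' := by
  simp only [Finset.mem_insert] at hx hx'
  rcases hx with rfl | rfl | hx
  · rcases hx' with rfl | rfl | hx'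
    · exact absurd rfl h1
    · exact absurd rfl h2
    · exact Or.inr ⟨x', hx', Or.inl ⟨rfl, rfl⟩⟩
  · rcases hx' with rfl | rfl | hx'
    · exact absurd (neg_neg _).symm h2
    · exact absurd rfl h1
    · exact Or.inr ⟨-x', hX _ hx', Or.inr (Or.inr (Or.inl ⟨rfl, (neg_neg _).symm⟩))⟩
  · rcases hx' with rfl | rfl | hx'
    · exact Or.inr ⟨x, hx, Or.inr (Or.inl ⟨rfl, rfl⟩)⟩
    · exact Or.inr ⟨-x, hX _ hx, Or.inr (Or.inr (Or.inr ⟨(neg_neg _).symm, rfl⟩))⟩
    · exact Or.inl ⟨hx, hx'⟩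

lemma eqv_cl (φ : ClassFun F A) (hneg : φ.cl (-1) = 0) {x x' y y' : F} (h : Eqv x x' y y')
    (hne : x - x' ≠ 0) : φ.cl (y - y') = φ.cl (x - x') := by
  rcases h with ⟨rfl, rfl⟩ | ⟨rfl, rfl⟩ | ⟨rfl, rfl⟩ | ⟨rfl, rfl⟩
  · rfl
  · rw [← neg_sub, neg_cl φ hneg _ hne]
  · rw [← neg_cl φ hneg _ hne]; congr 1; ring
  · congr 1; ring

lemma eqv_sub_ne {x x' y y' : F} (h : Eqv x x' y y') (hne : x - x' ≠ 0) : y - y' ≠ 0 := by
  rcases h with ⟨rfl, rfl⟩ | ⟨rfl, rfl⟩ | ⟨rfl, rfl⟩ | ⟨rfl, rfl⟩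
  · exact hne
  · rw [← neg_sub]; exact neg_ne_zero.mpr hne
  · intro h; apply hne; linear_combination -h
  · intro h; apply hne; linear_combination h

lemma DX_step (φ : ClassFun F A) (hneg : φ.cl (-1) = 0) (X : Finset F) (hX : ∀ z ∈ X, -z ∈ X)
    (hD : DX φ X) (w : F) (hw : w ∉ X)
    (h1 : ∀ z ∈ X, ∀ y ∈ X, ∀ y' ∈ X, φ.cl (w - z) ≠ φ.cl (y - y'))
    (h2 : ∀ z ∈ X, ∀ z' ∈ X, z ≠ z' → φ.cl (w - z) ≠ φ.cl (w - z')) :
    DX φ (insert w (insert (-w) X)) := by
  have hwz : ∀ z ∈ X, w - z ≠ 0 := by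
    intro z hz h
    apply hw
    rw [sub_eq_zero.mp h]; exact hz
  intro x hx x' hx' y hy y' hy' hxx hxx' hyy hyy' hcl
  rcases normal_form X hX w x x' hx hx' hxx hxx' with ⟨hxX, hxX'⟩ | ⟨z, hz, hz'⟩
  · rcases normal_form X hX w y y' hy hy' hyy hyy' with ⟨hyX, hyX'⟩ | ⟨z, hz, hz'⟩
    · exact hD x hxX x' hxX' y hyX y' hyX' hxx hxx' hyy hyy' hcl
    · exfalso
      refine h1 z hz x hxX x' hxX' ?_
      rw [hcl, eqv_cl φ hneg hz' (hwz z hz)]
  · rcases normal_form X hX w y y' hy hy' hyy hyy' with ⟨hyX, hyX'⟩ | ⟨u, hu, hu'⟩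
    · exfalso
      refine h1 z hz y hyX y' hyX' ?_
      rw [← hcl, eqv_cl φ hneg hz' (hwz z hz)]
    · rw [eqv_cl φ hneg hz' (hwz z hz), eqv_cl φ hneg hu' (hwz u hu)] at hcl
      by_cases hzu : z = u
      · subst hzu
        exact hz'.symm.trans hu'
      · exact absurd hcl (h2 z hz u hu hzu)

end

/-- Choice of the vector `w` one coordinate at a time. -/
lemma exists_w (r N : ℕ) (hr : 0 < r) {F : Type} [Field F] [Fintype F] [DecidableEq F]
    {A : Type} [AddCommGroup A] [Fintype A] [DecidableEq A]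
    (φ1 : ClassFun F A) (φ2 : ClassFun F (ZMod r)) (hneg : φ1.cl (-1) = 0)
    (hA : Fintype.card A = r * N) (hN : (2 * r) ^ 4 < N) :
    ∀ j ≤ r, ∃ (w : ℕ → F) (X : Finset F), X.card ≤ 2 * j + 1 ∧ 0 ∈ X ∧ (∀ z ∈ X, -z ∈ X) ∧
      (∀ i < j, w i ∈ X ∧ w i ≠ 0 ∧ φ2.cl (w i) = (i : ZMod r)) ∧ DX φ1 X := by
  have : NeZero r := ⟨hr.ne'⟩
  intro j
  induction j with
  | zero =>
    intro _
    refine ⟨fun _ => 0, {0}, by simp, by simp, ?_, ?_, ?_⟩
    · intro z hz
      rw [Finset.mem_singleton] at hz ⊢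
      rw [hz, neg_zero]
    · intro i hi; exact absurd hi (Nat.not_lt_zero _)
    · intro x hx x' hx' y hy y' hy' h
      rw [Finset.mem_singleton] at hx hx'
      exact absurd (hx'.trans hx.symm) h
  | succ j ih =>
    intro hj
    obtain ⟨w, X, hXc, h0, hX, hw, hD⟩ := ih (by omega)
    set c1 := (φ1.fib 0).card with hc1
    have hc1pos : 0 < c1 := φ1.fib_pos
    have ha : (φ2.fib (j : ZMod r)).card = N * c1 := by
      rw [φ2.card_fib]
      have e1 := φ1.card_mul_fib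
      have e2 := φ2.card_mul_fib
      rw [hA] at e1
      rw [ZMod.card] at e2
      rw [← e1, mul_assoc] at e2
      exact Nat.eq_of_mul_eq_mul_left hr e2
    set B1 : Finset F := (X ×ˢ X ×ˢ X).biUnion (fun t =>
      univ.filter (fun w : F => w - t.1 ≠ 0 ∧ φ1.cl (w - t.1) = φ1.cl (t.2.1 - t.2.2))) with hB1
    set B2 : Finset F := ((X ×ˢ X).filter (fun t => t.1 ≠ t.2)).biUnion (fun t =>
      univ.filter (fun w : F => w - t.1 ≠ 0 ∧ w - t.2 ≠ 0 ∧ φ1.cl (w - t.1) = φ1.cl (w - t.2))) with hB2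
    have c2r : X.card ≤ 2 * r - 1 := by omega
    have hB1c : B1.card ≤ X.card ^ 3 * c1 := by
      refine le_trans Finset.card_biUnion_le ?_
      refine le_trans (Finset.sum_le_card_nsmul _ _ c1 ?_) ?_
      · intro t _; exact card_shift φ1 _ _
      · rw [Finset.card_product, Finset.card_product, smul_eq_mul]
        apply le_of_eq; ring
    have hB2c : B2.card ≤ X.card ^ 2 * c1 := by
      refine le_trans Finset.card_biUnion_le ?_
      refine le_trans (Finset.sum_le_card_nsmul _ _ c1 ?_) ?_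
      · intro t ht
        exact card_ratio φ1 _ _ (Finset.mem_filter.mp ht).2
      · rw [smul_eq_mul]
        refine Nat.mul_le_mul_right _ ?_
        refine le_trans (Finset.card_filter_le _ _) ?_
        rw [Finset.card_product, pow_two]
    have hlt : (X ∪ (B1 ∪ B2)).card < (φ2.fib (j : ZMod r)).card := by
      rw [ha]
      have h1 : (X ∪ (B1 ∪ B2)).card ≤ X.card + (B1.card + B2.card) :=
        le_trans (Finset.card_union_le _ _) (Nat.add_le_add_left (Finset.card_union_le _ _) _)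
      have h2 : X.card + (B1.card + B2.card) ≤ (X.card + X.card ^ 3 + X.card ^ 2) * c1 := by
        have : X.card ≤ X.card * c1 := Nat.le_mul_of_pos_right _ hc1pos
        nlinarith
      have h3 : X.card + X.card ^ 3 + X.card ^ 2 ≤ (2 * r) ^ 4 := by
        have hx : X.card + 1 ≤ 2 * r := by omega
        have h4 : (X.card + 1) ^ 4 ≤ (2 * r) ^ 4 := Nat.pow_le_pow_left hx 4
        have h5 : X.card + X.card ^ 3 + X.card ^ 2 ≤ (X.card + 1) ^ 4 := by
          ring_nf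
          nlinarith [Nat.zero_le (X.card ^ 4), Nat.zero_le (X.card ^ 3), Nat.zero_le (X.card ^ 2)]
        exact le_trans h5 h4
      have h6 : (X.card + X.card ^ 3 + X.card ^ 2) * c1 < N * c1 :=
        Nat.mul_lt_mul_of_pos_right (lt_of_le_of_lt h3 hN) hc1pos
      omega
    obtain ⟨v, hv, hvb⟩ := Finset.exists_mem_notMem_of_card_lt_card hlt
    rw [φ2.mem_fib] at hv
    simp only [Finset.mem_union, not_or] at hvb
    obtain ⟨hvX, hvB1, hvB2⟩ := hvb
    have hvz : ∀ z ∈ X, v - z ≠ 0 := by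
      intro z hz h
      apply hvX
      rw [sub_eq_zero.mp h]; exact hz
    refine ⟨Function.update w j v, insert v (insert (-v) X), ?_, ?_, ?_, ?_, ?_⟩
    · refine le_trans (Finset.card_insert_le _ _) ?_
      have := Finset.card_insert_le (-v) X
      omega
    · simp [h0]
    · intro z hz
      simp only [Finset.mem_insert] at hz ⊢
      rcases hz with rfl | rfl | hz
      · exact Or.inr (Or.inl rfl)
      · exact Or.inl (neg_neg _)
      · exact Or.inr (Or.inr (hX _ hz))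
    · intro i hi
      by_cases hij : i = j
      · subst hij
        rw [Function.update_self]
        exact ⟨Finset.mem_insert_self _ _, hv⟩
      · rw [Function.update_of_ne hij]
        obtain ⟨a1, a2⟩ := hw i (by omega)
        exact ⟨Finset.mem_insert_of_mem (Finset.mem_insert_of_mem a1), a2⟩
    · refine DX_step φ1 hneg X hX hD v hvX ?_ ?_
      · intro z hz y hy y' hy' h
        apply hvB1
        rw [hB1, Finset.mem_biUnion]
        refine ⟨(z, y, y'), by simp [hz, hy, hy'], ?_⟩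
        simp only [Finset.mem_filter, Finset.mem_univ, true_and]
        exact ⟨hvz z hz, h⟩
      · intro z hz z' hz' hzz h
        apply hvB2
        rw [hB2, Finset.mem_biUnion]
        refine ⟨(z, z'), by simp [hz, hz', hzz], ?_⟩
        simp only [Finset.mem_filter, Finset.mem_univ, true_and]
        exact ⟨hvz z hz, hvz z' hz', h⟩

end Pool.Agent.LibSteiner
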