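import Pool.Agent.LibSteiner.Sym

namespace Pool.Agent.LibSteiner

open Finset

theorem exists_x (k r N : ℕ) (hk : 2 ≤ k) (hr : r = k / 2) {F : Type} [Field F] [Fintype F]
    [DecidableEq F] {A : Type} [AddCommGroup A] [Fintype A] [DecidableEq A]
    (φ1 : ClassFun F A) (φ2 : ClassFun F (ZMod r)) (hneg : φ1.cl (-1) = 0)
    (hneg2 : φ2.cl (-1) = 0) (h2 : (2 : F) ≠ 0)
    (hA : Fintype.card A = r * N) (hN : (2 * r) ^ 4 < N) :
    ∃ x : Fin k → F, Function.Injective x ∧ (∀ p, x (Fin.rev p) = - x p) ∧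
      (∀ p : Fin k, p.val < r → x p ≠ 0 ∧ φ2.cl (x p) = ((p.val : ℕ) : ZMod r)) ∧
      (∀ p p' q q' : Fin k, p' ≠ p → p' ≠ Fin.rev p → q' ≠ q → q' ≠ Fin.rev q →
        φ1.cl (x p - x p') = φ1.cl (x q - x q') →
        (q = p ∧ q' = p') ∨ (q = p' ∧ q' = p) ∨ (q = Fin.rev p ∧ q' = Fin.rev p') ∨
        (q = Fin.rev p' ∧ q' = Fin.rev p)) := by
  have hr0 : 0 < r := by omega
  have : NeZero r := ⟨hr0.ne'⟩
  obtain ⟨w, X, -, h0, hX, hw, hD⟩ := exists_w r N hr0 φ1 φ2 hneg hA hN r le_rfl
  let x : Fin k → F := fun p => if p.val < r then w p.val else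
    if (Fin.rev p).val < r then - w (Fin.rev p).val else 0
  have x1 : ∀ p : Fin k, p.val < r → x p = w p.val := by
    intro p hp
    show (if p.val < r then w p.val else _) = _
    rw [if_pos hp]
  have x2 : ∀ p : Fin k, (Fin.rev p).val < r → x p = - w (Fin.rev p).val := by
    intro p hp
    have hp' : ¬ p.val < r := by
      rw [Fin.val_rev] at hp
      omega
    show (if p.val < r then w p.val else
      if (Fin.rev p).val < r then - w (Fin.rev p).val else 0) = _
    rw [if_neg hp', if_pos hp]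
  have x3 : ∀ p : Fin k, ¬ p.val < r → ¬ (Fin.rev p).val < r → x p = 0 := by
    intro p hp hp'
    show (if p.val < r then w p.val else
      if (Fin.rev p).val < r then - w (Fin.rev p).val else 0) = _
    rw [if_neg hp, if_neg hp']
  have hxX : ∀ p, x p ∈ X := by
    intro p
    by_cases h : p.val < r
    · rw [x1 p h]; exact (hw _ h).1
    · by_cases h' : (Fin.rev p).val < r
      · rw [x2 p h']; exact hX _ (hw _ h').1
      · rw [x3 p h h']; exact h0
  have hrev : ∀ p, x (Fin.rev p) = - x p := by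
    intro p
    by_cases h : p.val < r
    · rw [x1 p h, x2 (Fin.rev p) (by rw [Fin.rev_rev]; exact h), Fin.rev_rev]
    · by_cases h' : (Fin.rev p).val < r
      · rw [x2 p h', x1 _ h', neg_neg]
      · rw [x3 p h h', x3 (Fin.rev p) h' (by rw [Fin.rev_rev]; exact h), neg_zero]
  have winj : ∀ i j, i < r → j < r → w i = w j → i = j := by
    intro i j hi hj hij
    have h1 := (hw i hi).2.2
    have h2 := (hw j hj).2.2
    rw [hij, h2] at h1
    have h3 := (ZMod.natCast_eq_natCast_iff _ _ _).mp h1
    exact (Nat.ModEq.eq_of_lt_of_lt h3 hj hi).symm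
  have wneg : ∀ i j, i < r → j < r → w i ≠ - w j := by
    intro i j hi hj hij
    have h1 := (hw i hi).2.2
    have h2' := (hw j hj).2.2
    rw [hij, neg_cl φ2 hneg2 _ (hw j hj).2.1, h2'] at h1
    have h3 := (ZMod.natCast_eq_natCast_iff _ _ _).mp h1
    have h4 := (Nat.ModEq.eq_of_lt_of_lt h3 hj hi)
    subst h4
    have h5 : (2 : F) * w j = 0 := by linear_combination hij
    rcases mul_eq_zero.mp h5 with h6 | h6
    · exact h2 h6
    · exact (hw j hj).2.1 h6
  have hinj : Function.Injective x := by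
    intro p q hpq
    by_cases hp : p.val < r
    · rw [x1 p hp] at hpq
      by_cases hq : q.val < r
      · rw [x1 q hq] at hpq
        exact Fin.ext (winj _ _ hp hq hpq)
      · by_cases hq' : (Fin.rev q).val < r
        · rw [x2 q hq'] at hpq
          exact absurd hpq (wneg _ _ hp hq')
        · rw [x3 q hq hq'] at hpq
          exact absurd hpq (hw _ hp).2.1
    · by_cases hp' : (Fin.rev p).val < r
      · rw [x2 p hp'] at hpq
        by_cases hq : q.val < r
        · rw [x1 q hq] at hpq
          exact absurd hpq.symm (wneg _ _ hq hp')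
        · by_cases hq' : (Fin.rev q).val < r
          · rw [x2 q hq'] at hpq
            have := winj _ _ hp' hq' (neg_injective hpq)
            exact Fin.rev_injective (Fin.ext this)
          · rw [x3 q hq hq'] at hpq
            exact absurd (neg_eq_zero.mp hpq) (hw _ hp').2.1
      · rw [x3 p hp hp'] at hpq
        by_cases hq : q.val < r
        · rw [x1 q hq] at hpq
          exact absurd hpq.symm (hw _ hq).2.1
        · by_cases hq' : (Fin.rev q).val < r
          · rw [x2 q hq'] at hpq
            exact absurd (neg_eq_zero.mp hpq.symm) (hw _ hq').2.1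
          · rw [Fin.val_rev] at hp' hq'
            apply Fin.ext
            have := p.2
            have := q.2
            omega
  refine ⟨x, hinj, hrev, ?_, ?_⟩
  · intro p hp
    rw [x1 p hp]
    exact (hw _ hp).2
  · intro p p' q q' h1 h2 h3 h4 hcl
    have key : Eqv (x p) (x p') (x q) (x q') := by
      refine hD _ (hxX p) _ (hxX p') _ (hxX q) _ (hxX q') ?_ ?_ ?_ ?_ hcl
      · exact fun h => h1 (hinj h)
      · intro h; rw [← hrev] at h; exact h2 (hinj h)
      · exact fun h => h3 (hinj h)
      · intro h; rw [← hrev] at h; exact h4 (hinj h)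
    unfold Eqv at key
    rw [← hrev, ← hrev] at key
    rcases key with ⟨a, b⟩ | ⟨a, b⟩ | ⟨a, b⟩ | ⟨a, b⟩
    · exact Or.inl ⟨hinj a, hinj b⟩
    · exact Or.inr (Or.inl ⟨hinj a, hinj b⟩)
    · exact Or.inr (Or.inr (Or.inl ⟨hinj a, hinj b⟩))
    · exact Or.inr (Or.inr (Or.inr ⟨hinj a, hinj b⟩))

end Pool.Agent.LibSteiner
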